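import Pool.Agent.H97.S3.Coi

/-!
# [H97 S3 SHT] configurations with norm in a short interval (MP_b39724_nt, stage 3)

`cnt_short`: the configurations of norm between `Y` and `(1 + η) Y`, `η ≤ (log Y) ^ (-A')`, have a total weight of at most `Y (log Y) ^ (-A)`.
Proof: few configurations have more than `B log log Y` places; the others have a place of norm at least `Y ^ (1 / (B log log Y))`, which for
given other places is in a short interval.
-/

set_option autoImplicit false

open scoped NumberField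
open NumberField IsDedekindDomain H63.MA H57.AN H35.CF
open scoped Classical

noncomputable section

namespace H97.S3

variable (K : Type) [Field K] [NumberField K]

/-- the sets with a large place and norm in a short interval -/
theorem short_set (B : ℕ) : ∃ C A κ : ℝ, 0 < C ∧ 0 ≤ A ∧ 0 < κ ∧ ∀ η T Y : ℝ, 0 ≤ η → η ≤ 1 →
    1 ≤ T → 1 ≤ Y → ∑ s ∈ (AF K ((1 + η) * Y)).filter (fun s => Y < nr s ∧ ∃ w ∈ s, 2 * T ≤ nm w),
      (B : ℝ) ^ s.card ≤ C * Y * (1 + Real.log (2 * Y)) ^ A * (η + T ^ (-κ)) := by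
  obtain ⟨C₀, A, hC₀, hA, h₀⟩ := af_pow K B
  obtain ⟨C₁, κ, hC₁, hκ, hκ1, h₁⟩ := af_short K
  refine ⟨((B : ℝ) + 1) * C₀ * C₁, A, κ, by positivity, hA, hκ, ?_⟩
  intro η T Y hη hη1 hT hY
  have hY0 : 0 < Y := by linarith
  have hT0 : 0 < T := by linarith
  have hB0 : (0 : ℝ) ≤ B := Nat.cast_nonneg _
  obtain ⟨V, hV⟩ : ∃ V : Finset (Pl K) → Finset (Pl K), V = fun s =>
    (PB K ((1 + η) * Y)).filter fun w => w ∉ s ∧ 2 * T ≤ nm w ∧ Y < nm w * nr s ∧
      nm w * nr s ≤ (1 + η) * Y := ⟨_, rfl⟩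
  have h2 : ∑ s ∈ (AF K ((1 + η) * Y)).filter (fun s => Y < nr s ∧ ∃ w ∈ s, 2 * T ≤ nm w),
      (B : ℝ) ^ s.card ≤ ∑ s ∈ AF K (2 * Y), ∑ _w ∈ V s, (B : ℝ) ^ (s.card + 1) := by
    obtain ⟨Fs, hFs⟩ : ∃ Fs, Fs = (AF K ((1 + η) * Y)).filter
      (fun s => Y < nr s ∧ ∃ w ∈ s, 2 * T ≤ nm w) := ⟨_, rfl⟩
    rw [← hFs, Finset.sum_sigma']
    have hinj : Set.InjOn (fun a : (_ : Finset (Pl K)) × Pl K =>
        (⟨a.1.erase a.2, a.2⟩ : (_ : Finset (Pl K)) × Pl K))
        (Fs.sigma fun s => s.filter fun w => 2 * T ≤ nm w) := by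
      rintro ⟨s, w⟩ hs ⟨s', w'⟩ hs' h
      rw [Finset.mem_coe, Finset.mem_sigma, Finset.mem_filter] at hs hs'
      simp only [Sigma.mk.injEq, heq_eq_eq] at h
      obtain ⟨h4, rfl⟩ := h
      have hw : w ∈ s := hs.2.1
      have hw' : w ∈ s' := hs'.2.1
      have h5 : s = s' := by
        rw [← Finset.insert_erase hw, ← Finset.insert_erase hw', h4]
      rw [h5]
    calc ∑ s ∈ Fs, (B : ℝ) ^ s.card
        ≤ ∑ s ∈ Fs, ∑ _w ∈ s.filter (fun w => 2 * T ≤ nm w), (B : ℝ) ^ s.card := by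
          refine Finset.sum_le_sum fun s hs => ?_
          rw [hFs, Finset.mem_filter] at hs
          obtain ⟨-, -, w, hw, hwT⟩ := hs
          rw [Finset.sum_const, nsmul_eq_mul]
          refine le_mul_of_one_le_left (by positivity) ?_
          have h6 : 0 < (s.filter fun w => 2 * T ≤ nm w).card :=
            Finset.card_pos.2 ⟨w, Finset.mem_filter.2 ⟨hw, hwT⟩⟩
          exact_mod_cast h6
      _ = ∑ a ∈ Fs.sigma (fun s => s.filter fun w => 2 * T ≤ nm w), (B : ℝ) ^ a.1.card :=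
          Finset.sum_sigma' _ _ _
      _ = ∑ a ∈ Fs.sigma (fun s => s.filter fun w => 2 * T ≤ nm w),
          (fun a : (_ : Finset (Pl K)) × Pl K => (B : ℝ) ^ (a.1.card + 1))
            ⟨a.1.erase a.2, a.2⟩ := by
          refine Finset.sum_congr rfl fun a ha => ?_
          rw [Finset.mem_sigma, Finset.mem_filter] at ha
          beta_reduce
          rw [Finset.card_erase_add_one ha.2.1]
      _ = ∑ a ∈ (Fs.sigma fun s => s.filter fun w => 2 * T ≤ nm w).image
            (fun a : (_ : Finset (Pl K)) × Pl K =>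
              (⟨a.1.erase a.2, a.2⟩ : (_ : Finset (Pl K)) × Pl K)),
          (B : ℝ) ^ (a.1.card + 1) :=
          (Finset.sum_image (f := fun a : (_ : Finset (Pl K)) × Pl K =>
            (B : ℝ) ^ (a.1.card + 1)) hinj).symm
      _ ≤ _ := by
          refine Finset.sum_le_sum_of_subset_of_nonneg ?_ fun a _ _ => by positivity
          intro a ha
          rw [Finset.mem_image] at ha
          obtain ⟨⟨s, w⟩, hs, rfl⟩ := ha
          rw [Finset.mem_sigma, Finset.mem_filter, hFs, Finset.mem_filter, mem_AF] at hs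
          obtain ⟨⟨h4, h5, -⟩, hw, hwT⟩ := hs
          rw [Finset.mem_sigma]
          have e1 := nr_erase K hw
          refine ⟨?_, ?_⟩
          · rw [mem_AF]
            have e2 : nr (s.erase w) ≤ nr s := nr_mono (Finset.erase_subset _ _)
            beta_reduce
            refine e2.trans (h4.trans ?_)
            exact mul_le_mul_of_nonneg_right (by linarith) hY0.le
          · rw [hV]
            beta_reduce
            rw [Finset.mem_filter, mem_PB]
            refine ⟨?_, Finset.notMem_erase _ _, hwT, ?_, ?_⟩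
            · refine le_trans ?_ h4
              rw [e1]
              exact le_mul_of_one_le_right (Nat.cast_nonneg _) (one_le_nr _)
            · rw [← e1]
              exact h5
            · rw [← e1]
              exact h4
  have hTκ : 0 ≤ T ^ (-κ) := Real.rpow_nonneg hT0.le _
  have h3 : ∀ s ∈ AF K (2 * Y), ∑ _w ∈ V s, (B : ℝ) ^ (s.card + 1) ≤
      ((B : ℝ) + 1) * C₁ * Y * (η + T ^ (-κ)) * ((B : ℝ) ^ s.card * (nr s)⁻¹) := by
    intro s _
    have hn1 : 1 ≤ nr s := one_le_nr s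
    have hn0 : 0 < nr s := by linarith
    rw [Finset.sum_const, nsmul_eq_mul]
    by_cases hne : (V s).Nonempty
    · obtain ⟨w, hw⟩ := hne
      rw [hV] at hw
      beta_reduce at hw
      rw [Finset.mem_filter] at hw
      obtain ⟨-, -, hw1, hw2, hw3⟩ := hw
      obtain ⟨y, hy⟩ : ∃ y : ℝ, y = Y / nr s := ⟨_, rfl⟩
      have hyn : y * nr s = Y := by
        rw [hy]
        field_simp
      have hyT : T ≤ y := by
        rw [hy, le_div_iff₀ hn0]
        nlinarith [mul_le_mul_of_nonneg_right hw1 hn0.le]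
      have hy1 : 1 ≤ y := by linarith
      have hy0 : 0 < y := by linarith
      have h4 : ((V s).card : ℝ) ≤ C₁ * (η * y + y ^ (1 - κ)) := by
        refine le_trans ?_ (h₁ y η hy1 hη hη1)
        have h5 : (V s).card ≤ ((AF K ((1 + η) * y)).filter fun n => y < nr n).card := by
          refine Finset.card_le_card_of_injOn (fun w => {w}) ?_ ?_
          · intro w hw
            rw [Finset.mem_coe, hV] at hw
            beta_reduce at hw
            rw [Finset.mem_filter] at hw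
            obtain ⟨-, -, -, h6, h7⟩ := hw
            rw [Finset.mem_coe, Finset.mem_filter, mem_AF]
            have h2 : nr ({w} : Finset (Pl K)) = nm w := by
              unfold nr
              rw [Finset.prod_singleton]
            rw [h2]
            constructor
            · rw [hy, ← mul_div_assoc, le_div_iff₀ hn0]
              exact h7
            · rw [hy, div_lt_iff₀ hn0]
              exact h6
          · intro a _ b _ hab
            exact Finset.singleton_injective hab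
        exact_mod_cast h5
      have h5 : y ^ (1 - κ) ≤ y * T ^ (-κ) := by
        rw [show (1 - κ) = 1 + -κ by ring, Real.rpow_add hy0, Real.rpow_one]
        exact mul_le_mul_of_nonneg_left (Real.rpow_le_rpow_of_nonpos hT0 hyT (by linarith)) hy0.le
      have h6 : ((V s).card : ℝ) ≤ C₁ * (y * (η + T ^ (-κ))) := by
        refine h4.trans (mul_le_mul_of_nonneg_left ?_ hC₁.le)
        linarith
      have hBs : 0 ≤ (B : ℝ) ^ s.card := by positivity
      calc ((V s).card : ℝ) * (B : ℝ) ^ (s.card + 1)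
          ≤ (C₁ * (y * (η + T ^ (-κ)))) * (((B : ℝ) + 1) * (B : ℝ) ^ s.card) := by
            refine mul_le_mul h6 ?_ (by positivity) (by positivity)
            rw [pow_succ]
            nlinarith
        _ = ((B : ℝ) + 1) * C₁ * Y * (η + T ^ (-κ)) * ((B : ℝ) ^ s.card * (nr s)⁻¹) := by
            rw [hy]
            field_simp
    · rw [Finset.not_nonempty_iff_eq_empty] at hne
      rw [hne, Finset.card_empty, Nat.cast_zero, zero_mul]
      positivity
  refine h2.trans ((Finset.sum_le_sum h3).trans ?_)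
  rw [← Finset.mul_sum]
  have h4 := (h₀ (2 * Y) (by linarith)).2
  refine (mul_le_mul_of_nonneg_left h4 (by positivity)).trans (le_of_eq ?_)
  ring

/-- a power of the logarithm against a power of `exp (sqrt (log Y))` -/
theorem exp_sqrt (κ A : ℝ) (hκ : 0 < κ) : ∃ C : ℝ, 0 < C ∧ ∀ x : ℝ, 1 ≤ x →
    Real.exp (-κ * Real.sqrt x) ≤ C * x ^ (-A) := by
  obtain ⟨n, hn⟩ := exists_nat_ge (2 * |A|)
  refine ⟨n.factorial / κ ^ n, by positivity, fun x hx => ?_⟩
  have hx0 : 0 < x := by linarith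
  have hs1 : 1 ≤ Real.sqrt x := Real.one_le_sqrt.2 hx
  have hs0 : 0 < Real.sqrt x := by linarith
  have h1 := Real.pow_div_factorial_le_exp (κ * Real.sqrt x) (by positivity) n
  have h2 : x ^ |A| ≤ Real.sqrt x ^ n := by
    have h3 : x ^ |A| = Real.sqrt x ^ (2 * |A|) := by
      rw [Real.sqrt_eq_rpow, ← Real.rpow_mul hx0.le]
      congr 1
      ring
    rw [h3, ← Real.rpow_natCast]
    exact Real.rpow_le_rpow_of_exponent_le hs1 hn
  have h4 : κ ^ n * x ^ |A| / n.factorial ≤ Real.exp (κ * Real.sqrt x) := by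
    refine le_trans ?_ h1
    rw [mul_pow]
    have : κ ^ n * x ^ |A| ≤ κ ^ n * Real.sqrt x ^ n := mul_le_mul_of_nonneg_left h2 (by positivity)
    exact div_le_div_of_nonneg_right this (by positivity)
  have hxA : 0 < x ^ |A| := Real.rpow_pos_of_pos hx0 _
  have h5 : Real.exp (-κ * Real.sqrt x) ≤ n.factorial / κ ^ n * x ^ (-|A|) := by
    rw [neg_mul, Real.exp_neg, Real.rpow_neg hx0.le]
    have h6 : (Real.exp (κ * Real.sqrt x))⁻¹ ≤ (κ ^ n * x ^ |A| / n.factorial)⁻¹ :=
      inv_anti₀ (by positivity) h4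
    refine h6.trans (le_of_eq ?_)
    field_simp
  refine h5.trans (mul_le_mul_of_nonneg_left ?_ (by positivity))
  exact Real.rpow_le_rpow_of_exponent_le hx (neg_le_neg (le_abs_self A))

/-- few configurations have norm in a short interval -/
theorem cnt_short (Λ : Type) [Fintype Λ] (b A : ℝ) (hb : 0 ≤ b) (hA : 0 ≤ A) :
    ∃ C A' : ℝ, 0 < C ∧ 0 ≤ A' ∧ ∀ (Z : Finset (Pl K)) (Y η : ℝ), 3 ≤ Y → 0 ≤ η →
      η ≤ Real.log Y ^ (-A') →
      ∑ c ∈ (Cf Z Λ).filter (fun c => Y < nr (sp Z c) ∧ nr (sp Z c) ≤ (1 + η) * Y),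
        b ^ (sp Z c).card ≤ C * Y * Real.log Y ^ (-A) := by
  obtain ⟨B, Cr, hB, hCr, hr⟩ := cnt_ran K Λ b hb A
  obtain ⟨C₁, A₁, κ, hC₁, hA₁, hκ, h₁⟩ := short_set K (⌈b⌉₊ * Fintype.card Λ)
  obtain ⟨C₂, hC₂, h₂⟩ := exp_sqrt (κ / (4 * B)) (A + A₁) (by positivity)
  refine ⟨2 * Cr + C₁ * 3 ^ A₁ * (1 + 2 ^ κ * C₂), A + A₁, by positivity, by positivity, ?_⟩
  intro Z Y η hY hη hη'
  have hY0 : (0 : ℝ) < Y := by linarith
  obtain ⟨ℓ, hℓ⟩ : ∃ ℓ, ℓ = Real.log Y := ⟨_, rfl⟩
  have hl1 : 1 ≤ ℓ := by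
    rw [hℓ, Real.le_log_iff_exp_le hY0]
    exact (Real.exp_one_lt_d9.le.trans (by norm_num)).trans hY
  have hl0 : 0 < ℓ := by linarith
  rw [← hℓ] at hη' ⊢
  have hη1 : η ≤ 1 := hη'.trans (Real.rpow_le_one_of_one_le_of_nonpos hl1 (by linarith))
  have hl2 : Real.log (2 * Y) ≤ 1 + ℓ := by
    rw [Real.log_mul (by norm_num) hY0.ne', ← hℓ]
    have h := Real.log_two_lt_d9
    linarith
  have hsq : Real.sqrt ℓ * Real.sqrt ℓ = ℓ := Real.mul_self_sqrt hl0.le
  have hs1 : 1 ≤ Real.sqrt ℓ := Real.one_le_sqrt.2 hl1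
  have hll : 1 + Real.log (Real.log (2 * Y)) ≤ 4 * Real.sqrt ℓ := by
    have h4 : Real.log (Real.log (2 * Y)) ≤ Real.log (2 * ℓ) :=
      Real.log_le_log (Real.log_pos (by linarith)) (by linarith)
    rw [Real.log_mul (by norm_num) hl0.ne'] at h4
    have h5 := Real.log_two_lt_d9
    have h6 : Real.log ℓ = 2 * Real.log (Real.sqrt ℓ) := by
      rw [Real.log_sqrt hl0.le]
      ring
    have h7 := Real.log_le_sub_one_of_pos (by linarith : (0 : ℝ) < Real.sqrt ℓ)
    linarith
  obtain ⟨E, hE⟩ : ∃ E, E = Real.exp (Real.sqrt ℓ / (4 * B)) := ⟨_, rfl⟩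
  have hE0 : 0 < E := by
    rw [hE]
    exact Real.exp_pos _
  obtain ⟨T, hT⟩ : ∃ T : ℝ, T = max 1 (E / 2) := ⟨_, rfl⟩
  have hT1 : 1 ≤ T := by
    rw [hT]
    exact le_max_left _ _
  have hTE : E / 2 ≤ T := by
    rw [hT]
    exact le_max_right _ _
  have hTκ : T ^ (-κ) ≤ 2 ^ κ * (C₂ * ℓ ^ (-(A + A₁))) := by
    have h4 : T ^ (-κ) ≤ (E / 2) ^ (-κ) :=
      Real.rpow_le_rpow_of_nonpos (by positivity) hTE (by linarith)
    have h5 : (E / 2) ^ (-κ) = 2 ^ κ * Real.exp (-(κ / (4 * B)) * Real.sqrt ℓ) := by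
      rw [Real.div_rpow hE0.le (by norm_num), Real.rpow_neg (by norm_num : (0 : ℝ) ≤ 2), div_inv_eq_mul,
        mul_comm, hE, ← Real.exp_mul]
      congr 2
      field_simp
    rw [h5] at h4
    exact h4.trans (mul_le_mul_of_nonneg_left (h₂ ℓ hl1) (by positivity))
  obtain ⟨Sc, hSc⟩ : ∃ Sc : Finset (Pl K) → Prop, Sc = fun s =>
    Y < nr s ∧ ∃ w ∈ s, 2 * T ≤ nm w := ⟨_, rfl⟩
  have hsplit : ∑ c ∈ (Cf Z Λ).filter (fun c => Y < nr (sp Z c) ∧ nr (sp Z c) ≤ (1 + η) * Y),
        b ^ (sp Z c).card ≤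
      ∑ c ∈ (Cf Z Λ).filter (fun c => nr (sp Z c) ≤ 2 * Y ∧
          B * (1 + Real.log (Real.log (2 * Y))) < ((sp Z c).card : ℝ)), b ^ (sp Z c).card +
      ∑ c ∈ (Cf Z Λ).filter (fun c => nr (sp Z c) ≤ (1 + η) * Y),
        if Sc (sp Z c) then b ^ (sp Z c).card else 0 := by
    rw [Finset.sum_filter, Finset.sum_filter, Finset.sum_filter, ← Finset.sum_add_distrib]
    refine Finset.sum_le_sum fun c _ => ?_
    have hb1 : 0 ≤ b ^ (sp Z c).card := by positivity
    by_cases h4 : Y < nr (sp Z c) ∧ nr (sp Z c) ≤ (1 + η) * Y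
    · rw [if_pos h4, if_pos h4.2]
      by_cases h5 : B * (1 + Real.log (Real.log (2 * Y))) < ((sp Z c).card : ℝ)
      · rw [if_pos ⟨h4.2.trans (mul_le_mul_of_nonneg_right (by linarith) hY0.le), h5⟩]
        split_ifs
        · linarith
        · linarith
      · have h6 : Sc (sp Z c) := by
          rw [hSc]
          refine ⟨h4.1, ?_⟩
          by_contra hcon
          push Not at hcon
          push Not at h5
          have h7 : nr (sp Z c) ≤ E ^ (sp Z c).card := by
            unfold nr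
            rw [← Finset.prod_const]
            refine Finset.prod_le_prod (fun v _ => Nat.cast_nonneg _) fun v hv => ?_
            have h8 := hcon v hv
            have h9 : (2 : ℝ) ≤ nm v := by exact_mod_cast one_lt_nm v
            rw [hT] at h8
            rcases le_total 1 (E / 2) with h10 | h10
            · rw [max_eq_right h10] at h8
              linarith
            · rw [max_eq_left h10] at h8
              linarith
          have h8 : E ^ (sp Z c).card ≤ Y := by
            rw [hE, ← Real.exp_nat_mul]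
            have h9 : ((sp Z c).card : ℝ) * (Real.sqrt ℓ / (4 * B)) ≤ ℓ := by
              calc ((sp Z c).card : ℝ) * (Real.sqrt ℓ / (4 * B))
                  ≤ (B * (4 * Real.sqrt ℓ)) * (Real.sqrt ℓ / (4 * B)) := by
                    refine mul_le_mul_of_nonneg_right ?_ (by positivity)
                    exact h5.trans (mul_le_mul_of_nonneg_left hll hB.le)
                _ = ℓ := by
                    field_simp
                    rw [sq]
                    exact hsq
            calc Real.exp (((sp Z c).card : ℝ) * (Real.sqrt ℓ / (4 * B))) ≤ Real.exp ℓ :=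
                  Real.exp_le_exp.2 h9
              _ = Y := by rw [hℓ, Real.exp_log hY0]
          linarith [h4.1]
        rw [if_pos h6]
        split_ifs
        · linarith
        · linarith
    · rw [if_neg h4]
      refine add_nonneg ?_ ?_
      · split_ifs
        · exact hb1
        · exact le_rfl
      · split_ifs
        · exact hb1
        · exact le_rfl
        · exact le_rfl
  refine hsplit.trans ?_
  have hp1 : ∑ c ∈ (Cf Z Λ).filter (fun c => nr (sp Z c) ≤ 2 * Y ∧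
        B * (1 + Real.log (Real.log (2 * Y))) < ((sp Z c).card : ℝ)), b ^ (sp Z c).card ≤
      2 * Cr * Y * ℓ ^ (-A) := by
    refine (hr Z (2 * Y) (by linarith)).1.trans ?_
    have h3 : Real.log (2 * Y) ^ (-A) ≤ ℓ ^ (-A) := by
      refine Real.rpow_le_rpow_of_nonpos hl0 ?_ (by linarith)
      rw [hℓ]
      exact Real.log_le_log hY0 (by linarith)
    calc Cr * (2 * Y) * Real.log (2 * Y) ^ (-A) ≤ Cr * (2 * Y) * ℓ ^ (-A) :=
          mul_le_mul_of_nonneg_left h3 (by positivity)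
      _ = 2 * Cr * Y * ℓ ^ (-A) := by ring
  have hp2 : ∑ c ∈ (Cf Z Λ).filter (fun c => nr (sp Z c) ≤ (1 + η) * Y),
        (if Sc (sp Z c) then b ^ (sp Z c).card else 0) ≤
      C₁ * 3 ^ A₁ * (1 + 2 ^ κ * C₂) * Y * ℓ ^ (-A) := by
    have h3 := cnt_set (fun s => if Sc s then b ^ s.card else 0)
      (fun s => by split_ifs; exacts [pow_nonneg hb _, le_rfl]) (fun _ (_ : Λ) => (1 : ℝ))
      (fun _ _ => zero_le_one) Z ((1 + η) * Y)
    simp only [om_one, mul_one] at h3
    refine h3.trans ?_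
    have h4 : ∑ s ∈ AF K ((1 + η) * Y), (if Sc s then b ^ s.card else 0) * ∏ _v ∈ s, ∑ _x : Λ, (1 : ℝ) ≤
        ∑ s ∈ (AF K ((1 + η) * Y)).filter (fun s => Y < nr s ∧ ∃ w ∈ s, 2 * T ≤ nm w),
          ((⌈b⌉₊ * Fintype.card Λ : ℕ) : ℝ) ^ s.card := by
      rw [Finset.sum_filter]
      refine Finset.sum_le_sum fun s _ => ?_
      rw [hSc]
      beta_reduce
      split_ifs with hs
      · rw [Finset.prod_const, Finset.sum_const, Finset.card_univ, nsmul_eq_mul, mul_one, ← mul_pow]
        push_cast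
        exact pow_le_pow_left₀ (mul_nonneg hb (Nat.cast_nonneg _))
          (mul_le_mul_of_nonneg_right (Nat.le_ceil b) (Nat.cast_nonneg _)) _
      · rw [zero_mul]
    refine h4.trans ((h₁ η T Y hη hη1 hT1 (by linarith)).trans ?_)
    have h5 : (1 + Real.log (2 * Y)) ^ A₁ ≤ 3 ^ A₁ * ℓ ^ A₁ := by
      rw [← Real.mul_rpow (by norm_num) hl0.le]
      refine Real.rpow_le_rpow ?_ (by linarith) hA₁
      have : 0 ≤ Real.log (2 * Y) := Real.log_nonneg (by linarith)
      linarith
    have h6 : η + T ^ (-κ) ≤ (1 + 2 ^ κ * C₂) * ℓ ^ (-(A + A₁)) := by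
      calc η + T ^ (-κ) ≤ ℓ ^ (-(A + A₁)) + 2 ^ κ * (C₂ * ℓ ^ (-(A + A₁))) := add_le_add hη' hTκ
        _ = (1 + 2 ^ κ * C₂) * ℓ ^ (-(A + A₁)) := by ring
    have h7 : 0 ≤ η + T ^ (-κ) := add_nonneg hη (Real.rpow_nonneg (by linarith) _)
    calc C₁ * Y * (1 + Real.log (2 * Y)) ^ A₁ * (η + T ^ (-κ))
        ≤ C₁ * Y * (3 ^ A₁ * ℓ ^ A₁) * ((1 + 2 ^ κ * C₂) * ℓ ^ (-(A + A₁))) := by
          refine mul_le_mul ?_ h6 h7 (by positivity)
          exact mul_le_mul_of_nonneg_left h5 (by positivity)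
      _ = C₁ * 3 ^ A₁ * (1 + 2 ^ κ * C₂) * Y * (ℓ ^ A₁ * ℓ ^ (-(A + A₁))) := by ring
      _ = C₁ * 3 ^ A₁ * (1 + 2 ^ κ * C₂) * Y * ℓ ^ (-A) := by
          rw [← Real.rpow_add hl0]
          congr 2
          ring
  refine (add_le_add hp1 hp2).trans (le_of_eq ?_)
  ring

end H97.S3
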