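import Pool.Agent.H35.CF.Cnt

/-!
# [H97 S3 COI] coincidences of norms (MP_b39724_nt, stage 3)

* `Coin δ T s`: the set `s` has two different places of norm larger than `T` whose norms differ at most by the factor `1 + δ`.
* `near_card`, `near_sum`: there are few pairs of such places. `cnt_coin`: few configurations have coincidences.
* `cnt_short`: few configurations have a norm between `Y` and `(1 + δ) Y`.
-/

set_option autoImplicit false

open scoped NumberField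
open NumberField IsDedekindDomain H63.MA H57.AN H35.CF
open scoped Classical

noncomputable section

namespace H97.S3

/-- two large places with almost the same norm -/
def Coin {K : Type} [Field K] [NumberField K] (δ T : ℝ) (s : Finset (Pl K)) : Prop :=
  ∃ v ∈ s, ∃ w ∈ s, v ≠ w ∧ T < nm v ∧ (nm v : ℝ) ≤ nm w ∧ (nm w : ℝ) ≤ (1 + δ) * nm v

variable (K : Type) [Field K] [NumberField K]

/-- the number of places with norm in a short interval -/
theorem near_card : ∃ C κ : ℝ, 0 < C ∧ 0 < κ ∧ κ < 1 ∧ ∀ (v : Pl K) (δ X : ℝ), 0 < δ → δ ≤ 1 / 3 →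
    (((PB K X).filter fun w => (nm v : ℝ) ≤ nm w ∧ (nm w : ℝ) ≤ (1 + δ) * nm v).card : ℝ) ≤
      C * (δ * nm v + (nm v : ℝ) ^ (1 - κ)) := by
  obtain ⟨C, κ, hC, hκ, hκ1, h⟩ := af_short K
  refine ⟨3 * C, κ, by linarith, hκ, hκ1, fun v δ X hδ hδ1 => ?_⟩
  have hv : (2 : ℝ) ≤ nm v := by exact_mod_cast one_lt_nm v
  obtain ⟨y, hy⟩ : ∃ y : ℝ, y = nm v / (1 + δ) := ⟨_, rfl⟩
  have hd : 0 < 1 + δ := by linarith
  have hyv : (1 + δ) * y = nm v := by
    rw [hy]
    field_simp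
  have hy1 : 1 ≤ y := by nlinarith
  have hyl : y < nm v := by nlinarith
  have hc := h y (3 * δ) hy1 (by linarith) (by linarith)
  have h1 : ((PB K X).filter fun w => (nm v : ℝ) ≤ nm w ∧ (nm w : ℝ) ≤ (1 + δ) * nm v).card ≤
      ((AF K ((1 + 3 * δ) * y)).filter fun n => y < nr n).card := by
    refine Finset.card_le_card_of_injOn (fun w => {w}) ?_ ?_
    · intro w hw
      rw [Finset.mem_coe, Finset.mem_filter] at hw
      rw [Finset.mem_coe, Finset.mem_filter, mem_AF]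
      have h2 : nr ({w} : Finset (Pl K)) = nm w := by
        unfold nr
        rw [Finset.prod_singleton]
      rw [h2]
      refine ⟨hw.2.2.trans ?_, hyl.trans_le hw.2.1⟩
      rw [← hyv]
      nlinarith
    · intro a _ b _ hab
      exact Finset.singleton_injective hab
  have h2 : (((PB K X).filter fun w => (nm v : ℝ) ≤ nm w ∧ (nm w : ℝ) ≤ (1 + δ) * nm v).card : ℝ) ≤
      (((AF K ((1 + 3 * δ) * y)).filter fun n => y < nr n).card : ℝ) := by exact_mod_cast h1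
  refine h2.trans (hc.trans ?_)
  have h3 : y ^ (1 - κ) ≤ (nm v : ℝ) ^ (1 - κ) :=
    Real.rpow_le_rpow (by linarith) hyl.le (by linarith)
  have h4 : 0 ≤ (nm v : ℝ) ^ (1 - κ) := Real.rpow_nonneg (by linarith) _
  have h5 : 3 * δ * y ≤ 3 * δ * nm v := mul_le_mul_of_nonneg_left hyl.le (by linarith)
  calc C * (3 * δ * y + y ^ (1 - κ)) ≤ C * (3 * δ * nm v + 3 * (nm v : ℝ) ^ (1 - κ)) :=
        mul_le_mul_of_nonneg_left (by linarith) hC.le
    _ = 3 * C * (δ * nm v + (nm v : ℝ) ^ (1 - κ)) := by ring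

/-- the sum over the pairs of large places with almost the same norm -/
theorem near_sum : ∃ C κ : ℝ, 0 < C ∧ 0 < κ ∧ ∀ δ T X : ℝ, 0 < δ → δ ≤ 1 / 3 → 1 ≤ T → 3 ≤ X →
    ∑ v ∈ (PB K X).filter (fun v => T < nm v),
      ∑ w ∈ (PB K X).filter (fun w => (nm v : ℝ) ≤ nm w ∧ (nm w : ℝ) ≤ (1 + δ) * nm v),
        ((nm v : ℝ) * nm w)⁻¹ ≤ C * (1 + Real.log X) * (δ + T ^ (-κ)) := by
  obtain ⟨C, κ, hC, hκ, hκ1, h⟩ := near_card K
  obtain ⟨C', hC', hm⟩ := mer1 K
  refine ⟨C * (1 + C'), κ, by positivity, hκ, fun δ T X hδ hδ1 hT hX => ?_⟩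
  have hX0 : 0 < X := by linarith
  have hlX : 1 ≤ Real.log X := by
    rw [Real.le_log_iff_exp_le hX0]
    exact (Real.exp_one_lt_d9.le.trans (by norm_num)).trans hX
  have hT0 : 0 < T := by linarith
  have hTκ : 0 ≤ T ^ (-κ) := Real.rpow_nonneg hT0.le _
  have h1 : ∀ v ∈ (PB K X).filter (fun v => T < nm v),
      ∑ w ∈ (PB K X).filter (fun w => (nm v : ℝ) ≤ nm w ∧ (nm w : ℝ) ≤ (1 + δ) * nm v),
        ((nm v : ℝ) * nm w)⁻¹ ≤ C * (δ + T ^ (-κ)) * (1 / nm v) := by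
    intro v hv
    rw [Finset.mem_filter] at hv
    have hv0 : (0 : ℝ) < nm v := by linarith [hv.2]
    have h2 : ∀ w ∈ (PB K X).filter (fun w => (nm v : ℝ) ≤ nm w ∧ (nm w : ℝ) ≤ (1 + δ) * nm v),
        ((nm v : ℝ) * nm w)⁻¹ ≤ ((nm v : ℝ) * nm v)⁻¹ := by
      intro w hw
      rw [Finset.mem_filter] at hw
      exact inv_anti₀ (by positivity) (mul_le_mul_of_nonneg_left hw.2.1 hv0.le)
    refine (Finset.sum_le_sum h2).trans ?_
    rw [Finset.sum_const, nsmul_eq_mul]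
    refine (mul_le_mul_of_nonneg_right (h v δ X hδ hδ1) (by positivity)).trans ?_
    have h3 : (nm v : ℝ) ^ (1 - κ) = nm v * (nm v : ℝ) ^ (-κ) := by
      rw [show (1 - κ) = 1 + -κ by ring, Real.rpow_add hv0, Real.rpow_one]
    have h4 : (nm v : ℝ) ^ (-κ) ≤ T ^ (-κ) :=
      Real.rpow_le_rpow_of_nonpos hT0 hv.2.le (by linarith)
    calc C * (δ * nm v + (nm v : ℝ) ^ (1 - κ)) * ((nm v : ℝ) * nm v)⁻¹
        = C * (δ + (nm v : ℝ) ^ (-κ)) * (1 / nm v) := by
          rw [h3]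
          field_simp
      _ ≤ C * (δ + T ^ (-κ)) * (1 / nm v) := by
          refine mul_le_mul_of_nonneg_right ?_ (by positivity)
          exact mul_le_mul_of_nonneg_left (by linarith) hC.le
  refine (Finset.sum_le_sum h1).trans ?_
  rw [← Finset.mul_sum]
  have h5 : ∑ v ∈ (PB K X).filter (fun v => T < nm v), (1 : ℝ) / nm v ≤
      ∑ v ∈ PB K X, (1 : ℝ) / nm v :=
    Finset.sum_le_sum_of_subset_of_nonneg (Finset.filter_subset _ _) fun v _ _ => by positivity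
  have h6 : Real.log (Real.log X) ≤ Real.log X := by
    have := Real.log_le_sub_one_of_pos (by linarith : (0 : ℝ) < Real.log X)
    linarith
  have h7 : ∑ v ∈ PB K X, (1 : ℝ) / nm v ≤ (1 + C') * (1 + Real.log X) := by
    refine (hm X hX).trans ?_
    nlinarith
  have h8 : 0 ≤ C * (δ + T ^ (-κ)) := by positivity
  calc C * (δ + T ^ (-κ)) * ∑ v ∈ (PB K X).filter (fun v => T < nm v), (1 : ℝ) / nm v
      ≤ C * (δ + T ^ (-κ)) * ((1 + C') * (1 + Real.log X)) :=
        mul_le_mul_of_nonneg_left (h5.trans h7) h8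
    _ = C * (1 + C') * (1 + Real.log X) * (δ + T ^ (-κ)) := by ring

theorem nr_erase {s : Finset (Pl K)} {v : Pl K} (h : v ∈ s) : nr s = nm v * nr (s.erase v) := by
  unfold nr
  rw [Finset.mul_prod_erase s (fun v => (nm v : ℝ)) h]

/-- few sets have coincidences -/
theorem coin_set (B : ℕ) : ∃ C A κ : ℝ, 0 < C ∧ 0 ≤ A ∧ 0 < κ ∧ ∀ δ T X : ℝ, 0 < δ → δ ≤ 1 / 3 →
    1 ≤ T → 3 ≤ X → ∑ s ∈ (AF K X).filter (fun s => Coin δ T s), (B : ℝ) ^ s.card ≤
      C * X * (1 + Real.log X) ^ A * (δ + T ^ (-κ)) := by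
  obtain ⟨C₀, A, hC₀, hA, h₀⟩ := af_pow K B
  obtain ⟨C₁, κ, hC₁, hκ, h₁⟩ := near_sum K
  refine ⟨((B : ℝ) ^ 2 + 1) * C₀ * C₁, A + 1, κ, by positivity, by linarith, hκ, ?_⟩
  intro δ T X hδ hδ1 hT hX
  have hX0 : 0 < X := by linarith
  have hlX : 1 ≤ Real.log X := by
    rw [Real.le_log_iff_exp_le hX0]
    exact (Real.exp_one_lt_d9.le.trans (by norm_num)).trans hX
  obtain ⟨V, hV⟩ : ∃ V, V = (PB K X).filter (fun v => T < nm v) := ⟨_, rfl⟩
  obtain ⟨Wf, hWf⟩ : ∃ Wf : Pl K → Finset (Pl K), Wf = fun v =>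
    (PB K X).filter (fun w => (nm v : ℝ) ≤ nm w ∧ (nm w : ℝ) ≤ (1 + δ) * nm v) := ⟨_, rfl⟩
  have hB0 : (0 : ℝ) ≤ B := Nat.cast_nonneg _
  have hmem : ∀ s ∈ AF K X, ∀ v ∈ s, v ∈ PB K X := by
    intro s hs v hv
    rw [mem_PB]
    refine le_trans ?_ (mem_AF.1 hs)
    rw [nr_erase K hv]
    exact le_mul_of_one_le_right (Nat.cast_nonneg _) (one_le_nr _)
  have h2 : ∑ s ∈ (AF K X).filter (fun s => Coin δ T s), (B : ℝ) ^ s.card ≤
      ∑ s ∈ AF K X, ∑ v ∈ V, ∑ w ∈ Wf v, if (v ≠ w ∧ v ∈ s ∧ w ∈ s) then (B : ℝ) ^ s.card else 0 := by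
    rw [Finset.sum_filter]
    refine Finset.sum_le_sum fun s hs => ?_
    split_ifs with hc
    · obtain ⟨v, hv, w, hw, hne, hTv, hvw, hwv⟩ := hc
      have hv' : v ∈ V := by
        rw [hV, Finset.mem_filter]
        exact ⟨hmem s hs v hv, hTv⟩
      have hw' : w ∈ Wf v := by
        rw [hWf]
        beta_reduce
        rw [Finset.mem_filter]
        exact ⟨hmem s hs w hw, hvw, hwv⟩
      have hnn : ∀ a b : Pl K, (0 : ℝ) ≤ if (a ≠ b ∧ a ∈ s ∧ b ∈ s) then (B : ℝ) ^ s.card else 0 := by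
        intro a b
        split_ifs
        · positivity
        · exact le_rfl
      refine le_trans ?_ (Finset.single_le_sum
        (f := fun v => ∑ w ∈ Wf v, if (v ≠ w ∧ v ∈ s ∧ w ∈ s) then (B : ℝ) ^ s.card else 0)
        (fun a _ => Finset.sum_nonneg fun b _ => hnn a b) hv')
      refine le_trans ?_ (Finset.single_le_sum
        (f := fun w => if (v ≠ w ∧ v ∈ s ∧ w ∈ s) then (B : ℝ) ^ s.card else 0)
        (fun b _ => hnn v b) hw')
      beta_reduce
      rw [if_pos ⟨hne, hv, hw⟩]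
    · refine Finset.sum_nonneg fun a _ => Finset.sum_nonneg fun b _ => ?_
      split_ifs
      · positivity
      · exact le_rfl
  have h3 : ∑ s ∈ AF K X, ∑ v ∈ V, ∑ w ∈ Wf v,
        (if (v ≠ w ∧ v ∈ s ∧ w ∈ s) then (B : ℝ) ^ s.card else 0) =
      ∑ v ∈ V, ∑ w ∈ Wf v, ∑ s ∈ AF K X,
        (if (v ≠ w ∧ v ∈ s ∧ w ∈ s) then (B : ℝ) ^ s.card else 0) := by
    rw [Finset.sum_comm]
    exact Finset.sum_congr rfl fun v _ => Finset.sum_comm
  have h4 : ∀ v w : Pl K, ∑ s ∈ AF K X,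
        (if (v ≠ w ∧ v ∈ s ∧ w ∈ s) then (B : ℝ) ^ s.card else 0) ≤
      ((B : ℝ) ^ 2 + 1) * C₀ * X * (1 + Real.log X) ^ A * ((nm v : ℝ) * nm w)⁻¹ := by
    intro v w
    have hv0 : (0 : ℝ) < nm v := by exact_mod_cast (one_lt_nm v).le
    have hw0 : (0 : ℝ) < nm w := by exact_mod_cast (one_lt_nm w).le
    have hv1 : (1 : ℝ) ≤ nm v := by exact_mod_cast (one_lt_nm v).le
    have hw1 : (1 : ℝ) ≤ nm w := by exact_mod_cast (one_lt_nm w).le
    by_cases hne : v = w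
    · rw [Finset.sum_eq_zero]
      · positivity
      · intro s _
        rw [if_neg]
        exact fun h => h.1 hne
    obtain ⟨y, hy⟩ : ∃ y : ℝ, y = X / (nm v * nm w) := ⟨_, rfl⟩
    have hvw : (0 : ℝ) < nm v * nm w := by positivity
    have h5 : ∑ s ∈ AF K X, (if (v ≠ w ∧ v ∈ s ∧ w ∈ s) then (B : ℝ) ^ s.card else 0) ≤
        ∑ s ∈ AF K y, (B : ℝ) ^ 2 * (B : ℝ) ^ s.card := by
      rw [← Finset.sum_filter]
      have h6 : ∀ s ∈ (AF K X).filter (fun s => v ≠ w ∧ v ∈ s ∧ w ∈ s), (B : ℝ) ^ s.card =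
          (B : ℝ) ^ 2 * (B : ℝ) ^ ((s.erase v).erase w).card := by
        intro s hs
        rw [Finset.mem_filter] at hs
        obtain ⟨-, -, hv, hw⟩ := hs
        have hw2 : w ∈ s.erase v := Finset.mem_erase.2 ⟨Ne.symm hne, hw⟩
        rw [← pow_add]
        congr 1
        have e1 := Finset.card_erase_add_one hv
        have e2 := Finset.card_erase_add_one hw2
        omega
      rw [Finset.sum_congr rfl h6]
      have hinj : Set.InjOn (fun s : Finset (Pl K) => (s.erase v).erase w)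
          ((AF K X).filter (fun s => v ≠ w ∧ v ∈ s ∧ w ∈ s)) := by
        intro s hs s' hs' h
        rw [Finset.mem_coe, Finset.mem_filter] at hs hs'
        beta_reduce at h
        have hw2 : w ∈ s.erase v := Finset.mem_erase.2 ⟨Ne.symm hne, hs.2.2.2⟩
        have hw3 : w ∈ s'.erase v := Finset.mem_erase.2 ⟨Ne.symm hne, hs'.2.2.2⟩
        have e1 : s.erase v = s'.erase v := by
          rw [← Finset.insert_erase hw2, ← Finset.insert_erase hw3, h]
        rw [← Finset.insert_erase hs.2.2.1, ← Finset.insert_erase hs'.2.2.1, e1]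
      rw [← Finset.sum_image (f := fun s : Finset (Pl K) => (B : ℝ) ^ 2 * (B : ℝ) ^ s.card) hinj]
      refine Finset.sum_le_sum_of_subset_of_nonneg ?_ fun s _ _ => by positivity
      intro s hs
      rw [Finset.mem_image] at hs
      obtain ⟨s', hs', rfl⟩ := hs
      rw [Finset.mem_filter, mem_AF] at hs'
      obtain ⟨hX', -, hv, hw⟩ := hs'
      have hw2 : w ∈ s'.erase v := Finset.mem_erase.2 ⟨Ne.symm hne, hw⟩
      rw [mem_AF, hy, le_div_iff₀ hvw]
      rw [nr_erase K hv, nr_erase K hw2] at hX'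
      calc nr ((s'.erase v).erase w) * (nm v * nm w) = nm v * (nm w * nr ((s'.erase v).erase w)) := by
            ring
        _ ≤ X := hX'
    refine h5.trans ?_
    rw [← Finset.mul_sum]
    have hr0 : 0 ≤ (1 + Real.log X) ^ A := Real.rpow_nonneg (by linarith) _
    by_cases hy1 : 1 ≤ y
    · have h6 := (h₀ y hy1).1
      have hyX : y ≤ X := by
        rw [hy]
        exact div_le_self hX0.le (one_le_mul_of_one_le_of_one_le hv1 hw1)
      have h7 : (1 + Real.log y) ^ A ≤ (1 + Real.log X) ^ A := by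
        refine Real.rpow_le_rpow ?_ ?_ hA
        · have := Real.log_nonneg hy1
          linarith
        · have := Real.log_le_log (by linarith) hyX
          linarith
      have hy0 : 0 ≤ y := by linarith
      calc (B : ℝ) ^ 2 * ∑ s ∈ AF K y, (B : ℝ) ^ s.card
          ≤ ((B : ℝ) ^ 2 + 1) * (C₀ * y * (1 + Real.log y) ^ A) :=
            mul_le_mul (by linarith) h6 (Finset.sum_nonneg fun _ _ => by positivity) (by positivity)
        _ ≤ ((B : ℝ) ^ 2 + 1) * (C₀ * y * (1 + Real.log X) ^ A) := by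
            refine mul_le_mul_of_nonneg_left ?_ (by positivity)
            exact mul_le_mul_of_nonneg_left h7 (by positivity)
        _ = ((B : ℝ) ^ 2 + 1) * C₀ * X * (1 + Real.log X) ^ A * ((nm v : ℝ) * nm w)⁻¹ := by
            rw [hy]
            field_simp
    · have h6 : AF K y = ∅ := by
        rw [Finset.eq_empty_iff_forall_notMem]
        intro s hs
        rw [mem_AF] at hs
        exact hy1 ((one_le_nr s).trans hs)
      rw [h6, Finset.sum_empty, mul_zero]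
      positivity
  refine h2.trans ?_
  rw [h3]
  have h5 : ∑ v ∈ V, ∑ w ∈ Wf v, ∑ s ∈ AF K X,
        (if (v ≠ w ∧ v ∈ s ∧ w ∈ s) then (B : ℝ) ^ s.card else 0) ≤
      ((B : ℝ) ^ 2 + 1) * C₀ * X * (1 + Real.log X) ^ A *
        ∑ v ∈ V, ∑ w ∈ Wf v, ((nm v : ℝ) * nm w)⁻¹ := by
    rw [Finset.mul_sum]
    refine Finset.sum_le_sum fun v _ => ?_
    rw [Finset.mul_sum]
    exact Finset.sum_le_sum fun w _ => h4 v w
  have h6 := h₁ δ T X hδ hδ1 hT hX
  rw [← hV] at h6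
  have h7 : ∑ v ∈ V, ∑ w ∈ Wf v, ((nm v : ℝ) * nm w)⁻¹ ≤
      C₁ * (1 + Real.log X) * (δ + T ^ (-κ)) := by
    rw [hWf]
    exact h6
  have hr0 : 0 ≤ (1 + Real.log X) ^ A := Real.rpow_nonneg (by linarith) _
  refine h5.trans ((mul_le_mul_of_nonneg_left h7 (by positivity)).trans (le_of_eq ?_))
  rw [Real.rpow_add (by linarith), Real.rpow_one]
  ring

/-- few configurations have coincidences -/
theorem cnt_coin (Λ : Type) [Fintype Λ] (b : ℝ) (hb : 0 ≤ b) :
    ∃ C A κ : ℝ, 0 < C ∧ 0 ≤ A ∧ 0 < κ ∧ ∀ (Z : Finset (Pl K)) (δ T X : ℝ), 0 < δ → δ ≤ 1 / 3 →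
    1 ≤ T → 3 ≤ X → ∑ c ∈ (Cf Z Λ).filter (fun c => nr (sp Z c) ≤ X ∧ Coin δ T (sp Z c)),
      b ^ (sp Z c).card ≤ C * X * (1 + Real.log X) ^ A * (δ + T ^ (-κ)) := by
  obtain ⟨C, A, κ, hC, hA, hκ, h⟩ := coin_set K (⌈b⌉₊ * Fintype.card Λ)
  refine ⟨C, A, κ, hC, hA, hκ, fun Z δ T X hδ hδ1 hT hX => ?_⟩
  refine le_trans ?_ (h δ T X hδ hδ1 hT hX)
  have h3 := cnt_set (fun s => if Coin δ T s then b ^ s.card else 0)
    (fun s => by split_ifs; exacts [pow_nonneg hb _, le_rfl]) (fun _ (_ : Λ) => (1 : ℝ))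
    (fun _ _ => zero_le_one) Z X
  simp only [om_one, mul_one] at h3
  have h4 : ∑ c ∈ (Cf Z Λ).filter (fun c => nr (sp Z c) ≤ X ∧ Coin δ T (sp Z c)),
      b ^ (sp Z c).card = ∑ c ∈ (Cf Z Λ).filter (fun c => nr (sp Z c) ≤ X),
        if Coin δ T (sp Z c) then b ^ (sp Z c).card else 0 := by
    rw [← Finset.sum_filter, Finset.filter_filter]
  rw [h4]
  refine h3.trans ?_
  rw [Finset.sum_filter]
  refine Finset.sum_le_sum fun s _ => ?_
  split_ifs with hs
  · rw [Finset.prod_const, Finset.sum_const, Finset.card_univ, nsmul_eq_mul, mul_one, ← mul_pow]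
    push_cast
    exact pow_le_pow_left₀ (mul_nonneg hb (Nat.cast_nonneg _))
      (mul_le_mul_of_nonneg_right (Nat.le_ceil b) (Nat.cast_nonneg _)) _
  · rw [zero_mul]

end H97.S3
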