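import Pool.Agent.H62.S3.Bxd
import Pool.Agent.H73.S3.Neg

/-!
# [H97 S3 NGA] the negligible part of stage 1 from the box inequality (MP_b39724_nt, stage 3, chapter B)

* `nga`: `NG` is negligible if `BxN` (H62/S3/Bxd) holds.
Proof. By richness every letter occurs at a place with `PPc`, the letters generate `S`, so a configuration with a value `≠ 0` has a place `v` with `PPc` and a letter `s` with `Sn`: `rem` for one place.
For a new place `v` with value `0`: `sgE` and `Kc` do not change, the factor of `v` is `ep (k (W_v) (y s)) qf ψ s 1 0`, the other factors do not depend on `v`. `bdo` for one place.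
-/

set_option autoImplicit false

open scoped NumberField commutatorElement
open IsDedekindDomain
open scoped Classical

noncomputable section

namespace H97.S3

open H63.MA H38.BB H38.BG H57.PC H57.BRA H77.WD H77.WE H77.PC3 H35.CF H35.UB H77.S3 H1.S3 H71.S3 H73.S3
  H62.S3

attribute [local instance 50] Fintype.ofFinite

section cmb

variable {V Λ : Type}

private theorem fr1 {Z : Finset V} {W : V → Prop} {b : V → Option Λ} {v : Fin 1 → V}
    (h : v ∈ H35.CF.Fr Z W b 1) : v 0 ∈ Z ∧ W (v 0) ∧ b (v 0) = none := (mem_fr.1 h).1 0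

private theorem up_nd {Z : Finset V} {W : V → Prop} {b : V → Option Λ} {v : Fin 1 → V}
    (h : v ∈ H35.CF.Fr Z W b 1) (l : Fin 1 → Λ) : up b v l (v 0) = some (l 0) :=
  up_of b v l (mem_fr.1 h).2 0

private theorem up_nn {b : V → Option Λ} {v : Fin 1 → V} (l : Fin 1 → Λ) {w : V} (h : w ≠ v 0) :
    up b v l w = b w := up_ne b v l w fun k hk => h (by rw [← hk, Subsingleton.elim k 0])

/-- the number of the places with a property of the label -/
private theorem cnt_up {Z : Finset V} {W : V → Prop} {b : V → Option Λ} {v : Fin 1 → V}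
    (h : v ∈ H35.CF.Fr Z W b 1) (l : Fin 1 → Λ) (Φ : Λ → Prop) :
    (Z.filter fun w => (∃ a, up b v l w = some a ∧ Φ a) ∧ W w).card =
      (Z.filter fun w => (∃ a, b w = some a ∧ Φ a) ∧ W w).card + if Φ (l 0) then 1 else 0 := by
  obtain ⟨h1, h2, h3⟩ := fr1 h
  split_ifs with hΦ
  · rw [← Finset.card_insert_of_notMem (a := v 0) (s := Z.filter fun w =>
      (∃ a, b w = some a ∧ Φ a) ∧ W w)]
    · congr 1
      ext w
      rw [Finset.mem_insert, Finset.mem_filter, Finset.mem_filter]
      by_cases hw : w = v 0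
      · subst hw
        rw [up_nd h l]
        simp [h1, h2, hΦ]
      · rw [up_nn l hw]
        simp [hw]
    · intro h4
      obtain ⟨-, ⟨a, h5, -⟩, -⟩ := Finset.mem_filter.1 h4
      rw [h3] at h5
      exact absurd h5 (by simp)
  · rw [add_zero]
    congr 1
    refine Finset.filter_congr fun w _ => ?_
    by_cases hw : w = v 0
    · subst hw
      rw [up_nd h l, h3]
      simp [hΦ]
    · rw [up_nn l hw]

/-- the number of the tuples of one place -/
private theorem nl_one (Z : Finset V) (W : V → Prop) (R : (V → Option Λ) → (Fin 1 → V) → Prop)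
    (f : V → Option Λ) (Φ : Λ → Prop)
    (hR : ∀ v : Fin 1 → V, R f v ↔ ∃ a, f (v 0) = some a ∧ Φ a) :
    Nl Z W 1 R f = (Z.filter fun w => (∃ a, f w = some a ∧ Φ a) ∧ W w).card := by
  unfold Nl Tp
  refine Finset.card_bij (fun v _ => v 0) ?_ ?_ ?_
  · intro v hv
    rw [Finset.mem_filter, Finset.mem_filter, Fintype.mem_piFinset] at hv
    obtain ⟨⟨h1, -⟩, h2⟩ := hv
    have h3 := Finset.mem_filter.1 (h1 0)
    exact Finset.mem_filter.2 ⟨(mem_sp.1 h3.1).1, (hR v).1 h2, h3.2⟩
  · intro v _ v' _ h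
    funext k
    rw [Subsingleton.elim k 0]
    exact h
  · intro w hw
    obtain ⟨h1, h2, h3⟩ := Finset.mem_filter.1 hw
    refine ⟨fun _ => w, ?_, rfl⟩
    rw [Finset.mem_filter, Finset.mem_filter, Fintype.mem_piFinset]
    refine ⟨⟨fun _ => Finset.mem_filter.2 ⟨mem_sp.2 ⟨h1, ?_⟩, h3⟩,
      Function.injective_of_subsingleton _⟩, (hR _).2 h2⟩
    obtain ⟨a, ha, -⟩ := h2
    rw [ha]
    exact Option.some_ne_none _

private theorem om_up {R : Type} [CommMonoid R] {Z : Finset V} {W : V → Prop} {b : V → Option Λ}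
    {v : Fin 1 → V} (h : v ∈ H35.CF.Fr Z W b 1) (l : Fin 1 → Λ) (a : V → Λ → R) :
    om Z a (up b v l) = om Z a b * a (v 0) (l 0) := by
  obtain ⟨h1, h2, h3⟩ := fr1 h
  unfold om
  rw [← Finset.mul_prod_erase Z _ h1, ← Finset.mul_prod_erase Z (fun w => (b w).elim 1 (a w)) h1,
    up_nd h l, h3]
  show a (v 0) (l 0) * _ = 1 * _ * _
  rw [one_mul, mul_comm]
  congr 1
  refine Finset.prod_congr rfl fun w hw => ?_
  rw [up_nn l (Finset.ne_of_mem_erase hw)]

private theorem om_le {Z : Finset V} (a : V → Λ → ℂ) (ha : ∀ v x, ‖a v x‖ ≤ 1)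
    (b : V → Option Λ) : ‖om Z a b‖ ≤ 1 := by
  unfold om
  rw [norm_prod]
  refine Finset.prod_le_one (fun _ _ => norm_nonneg _) fun v _ => ?_
  rcases b v with _ | x
  · show ‖(1 : ℂ)‖ ≤ 1
    rw [norm_one]
  · exact ha v x

end cmb

section nga

variable {K : Type} [Field K] [NumberField K] {Ω : Type} [Field Ω] [Algebra K Ω]
  {p N : ℕ} {ζ : K} {D : RD0 K p ζ} {Q : DP K Ω} {A : GS D Ω} {P : Type} [Group P]
  {c : CL p N P} {S : Type} [Group S] [MulDistribMulAction P S] {q : ℕ}

/-- the configurations of the rest -/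
def Cd (X : FD A P S) (W : WF A) (T : ℝ) (Zc : Finset (Pl K)) (h : Pl K → Option (La c S q)) :
    Prop :=
  (∀ v ∈ sp Zc h, PPc X W T v → kv h v = 0) ∧ ∃ v ∈ Zc, kv h v ≠ 0

omit [MulDistribMulAction P S] in
private theorem kv_up {Zc : Finset (Pl K)} {PP : Pl K → Prop} {b : Pl K → Option (La c S q)}
    {v : Fin 1 → Pl K} (hv : v ∈ H35.CF.Fr Zc PP b 1) (l : Fin 1 → La c S q) (hl : (l 0).2 = 0) :
    kv (up b v l) = kv b := by
  funext w
  unfold kv
  by_cases hw : w = v 0
  · subst hw
    rw [up_nd hv l, (fr1 hv).2.2]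
    exact hl
  · rw [up_nn l hw]

private theorem sg_kv {X : FD A P S} {W : WF A} (κ₀ : J0 X → Du S q 1)
    {h h' : Pl K → Option (La c S q)} (e : kv h = kv h') : sgE X W κ₀ h = sgE X W κ₀ h' := by
  unfold sgE
  rw [e]

private theorem kc_kv {B : SD D Q A} {X : FD A P S} {W : WF A} (κ₀ : J0 X → Du S q 1)
    {h h' : Pl K → Option (La c S q)} (e : kv h = kv h') : Kc B X W κ₀ h ↔ Kc B X W κ₀ h' := by
  unfold Kc
  rw [sg_kv κ₀ e]

private theorem sn_kv {G : SG c S} {Zc : Finset (Pl K)}
    {h h' : Pl K → Option (La c S q)} (e : kv h = kv h') (s : Px c) : Sn G Zc h s ↔ Sn G Zc h' s := by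
  unfold Sn
  rw [e]

/-- a value which annihilates all letters is zero -/
private theorem du_gen (G : SG c S) {χ : Du S q 1} (h : ∀ s, χ.ap (gk 1 (G.y s)) = 0) : χ = 0 := by
  have h1 : ∀ u : S, χ.ap (gk 1 u) = 0 := by
    intro u
    have hu : u ∈ Subgroup.closure (Set.range G.y) := by
      rw [G.gen]
      exact Subgroup.mem_top _
    induction hu using Subgroup.closure_induction with
    | mem x hx =>
      obtain ⟨s, rfl⟩ := hx
      exact h s
    | one => rw [gk_one, map_zero]
    | mul x y _ _ hx hy =>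
      rw [gk_mul (Subgroup.mem_top _) (Subgroup.mem_top _), map_add, hx, hy, add_zero]
    | inv x _ hx => rw [gk_inv (Subgroup.mem_top _), map_neg, hx, neg_zero]
  refine du_ext fun a => ?_
  obtain ⟨u, -, rfl⟩ := gk_surj 1 a
  rw [h1 u]
  rfl

private theorem qf_le [Fintype S] (G : SG c S) (ψ : AddChar (AN G.Pi) ℂ) (s : Px c) (g : P)
    (χ : Du S q 1) : ‖H71.S3.qf G ψ s g χ‖ ≤ 1 := by
  unfold H71.S3.qf
  rw [norm_div, Complex.norm_natCast]
  refine div_le_one_of_le₀ ?_ (Nat.cast_nonneg _)
  refine (norm_sum_le _ _).trans ?_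
  refine (Finset.sum_le_card_nsmul _ _ (1 : ℝ) fun u _ => ?_).trans ?_
  · split_ifs
    · rw [norm_mul, ep_norm, mul_one, AddChar.norm_apply]
    · rw [norm_zero]
      exact zero_le_one
  · rw [nsmul_eq_mul, mul_one, Finset.card_univ]

private theorem w1_le [Fintype S] (G : SG c S) (ψ : AddChar (AN G.Pi) ℂ) (s : Px c) (g : P)
    (χ ξ : Du S q 1) : ‖w1 G ψ s g χ ξ‖ ≤ 1 := by
  unfold w1
  rw [norm_mul, ep_norm, one_mul]
  exact qf_le G ψ s g χ

private theorem q1_le [Fintype S] (G : SG c S) (B : SD D Q A) (X : FD A P S) (W : WF A)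
    {F : Type} [Group F] (ψ : AddChar (AN G.Pi) ℂ) (k : F → Du S q 1)
    (a d : Pl K ⊕ Fin A.g → F) : ‖Q1 G B X W ψ k a d‖ ≤ 1 := by
  unfold Q1
  rw [norm_div, norm_pow, Complex.norm_natCast]
  refine div_le_one_of_le₀ ?_ (by positivity)
  refine (norm_sum_le _ _).trans ?_
  refine (Finset.sum_le_card_nsmul _ _ (1 : ℝ) fun u _ => ?_).trans ?_
  · split_ifs
    · unfold b1
      rw [norm_mul, ep_norm, mul_one, AddChar.norm_apply]
    · rw [norm_zero]
      exact zero_le_one
  · rw [nsmul_eq_mul, mul_one, Finset.card_univ, Fintype.card_fun, Fintype.card_coe]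
    push_cast
    exact le_rfl

omit [MulDistribMulAction P S] in
private theorem l1_sp (Zc : Finset (Pl K)) (h : Pl K → Option (La c S q)) :
    sp Zc (l1 h) = sp Zc h := by
  unfold sp l1
  refine Finset.filter_congr fun v _ => ?_
  rw [Ne, Option.map_eq_none_iff]

omit [MulDistribMulAction P S] in
private theorem rich_iff (X : FD A P S) (W : WF A) (T : ℝ) (Zc : Finset (Pl K)) (M : ℕ)
    (h : Pl K → Option (La c S q)) : Rich X W T Zc M (l1 h) ↔
      ∀ s : Px c, M ≤ (Zc.filter fun w => (∃ a, h w = some a ∧ a.1 = s) ∧ PPc X W T w).card := by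
  unfold Rich l1
  refine forall_congr' fun s => ?_
  simp only [Option.map_eq_some_iff]

variable [Fintype S] [Fintype P] [NeZero q]

theorem nga (G : SG c S) (B : SD D Q A) (M : ℕ) (hM : 1 ≤ M) (g₀ : ℕ) (A₁ ε : ℝ)
    (hA : 0 ≤ A₁) (hε : 0 < ε) :
    ∃ C₁ A' C : ℝ, 3 ≤ C₁ ∧ 0 ≤ A' ∧ 0 < C ∧ ∀ Y : ℝ, 3 ≤ Y →
      ∀ (X : FD A P S) (W : WF A) (Zc : Finset (Pl K)), X.E.card ≤ g₀ →
      ∀ ψ : ℝ → ℝ, (∀ t, |ψ t| ≤ 1) → (∀ t, 2 ≤ t → ψ t = 0) → (∀ s t, |ψ s - ψ t| ≤ |s - t|) →
      BxN (q := q) G B X W (Real.exp (Real.log Y ^ ε)) Zc C₁ A' Y →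
      ‖NG q G B X W (Real.exp (Real.log Y ^ ε)) Zc
        (wR X W (Real.exp (Real.log Y ^ ε)) Zc M ψ Y)‖ ≤ C * Y * Real.log Y ^ (-A₁) := by
  have hD1 : (1 : ℝ) ≤ (Fintype.card (Du S q 1) : ℝ) := by
    have h1 : 0 < Fintype.card (Du S q 1) := Fintype.card_pos_iff.2 ⟨0⟩
    exact_mod_cast h1
  obtain ⟨C₁, A', C₀, h1, h2, h3, hb⟩ := bdo K (La c S q) 1 1 A₁ ε zero_le_one hA hε
  have hC : (0 : ℝ) < (Fintype.card (AddChar (AN G.Pi) ℂ) : ℝ) *
      ((Fintype.card (Du S q 1) : ℝ) ^ (g₀ + A.g) *
        (((Fintype.card (La c S q) : ℝ) + 1) * C₀)) := by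
    have a1 : (0 : ℝ) < (Fintype.card (AddChar (AN G.Pi) ℂ) : ℝ) := by
      exact_mod_cast Fintype.card_pos
    have a2 : (0 : ℝ) < (Fintype.card (Du S q 1) : ℝ) := by linarith
    positivity
  refine ⟨C₁, A', _, h1, h2, hC, fun Y hY X W Zc hg ψ hψ1 hψ2 hψ3 hbx => ?_⟩
  obtain ⟨T, hT⟩ : ∃ T, T = Real.exp (Real.log Y ^ ε) := ⟨_, rfl⟩
  rw [← hT] at hbx ⊢
  have hlogY : (0 : ℝ) ≤ Real.log Y ^ (-A₁) :=
    Real.rpow_nonneg (Real.log_nonneg (by linarith)) _
  have hY0 : (0 : ℝ) < Y := by linarith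
  -- one character and one family of values at the fixed letters
  have key : ∀ (χ : AddChar (AN G.Pi) ℂ) (κ₀ : J0 X → Du S q 1),
      ‖∑ h ∈ (Cf Zc (La c S q)).filter (fun h => (∀ v ∈ sp Zc h, PPc X W T v → kv h v = 0) ∧
        ∃ v ∈ Zc, kv h v ≠ 0), sm G B X W Zc (wR X W T Zc M ψ Y) χ κ₀ h‖ ≤
      ((Fintype.card (La c S q) : ℝ) + 1) * (C₀ * Y * Real.log Y ^ (-A₁)) := by
    intro χ κ₀
    obtain ⟨R, hR⟩ : ∃ R : (Pl K → Option (La c S q)) → (Fin 1 → Pl K) → Prop,
        R = fun f v => ∃ a, f (v 0) = some a ∧ Sn G Zc f a.1 := ⟨_, rfl⟩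
    obtain ⟨Gf, hGf⟩ : ∃ Gf : (Pl K → Option (La c S q)) → ℂ,
        Gf = fun h => if Cd X W T Zc h then sm G B X W Zc (wR X W T Zc M ψ Y) χ κ₀ h else 0 :=
      ⟨_, rfl⟩
    have e0 : ∑ h ∈ (Cf Zc (La c S q)).filter (fun h => (∀ v ∈ sp Zc h, PPc X W T v → kv h v = 0) ∧
        ∃ v ∈ Zc, kv h v ≠ 0), sm G B X W Zc (wR X W T Zc M ψ Y) χ κ₀ h =
        ∑ h ∈ Cf Zc (La c S q), Gf h := by
      rw [Finset.sum_filter, hGf]
      exact Finset.sum_congr rfl fun h _ => if_congr Iff.rfl rfl rfl
    rw [e0, rem Zc (PPc X W T) 1 R Gf (fun f hf hne => by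
      rw [hGf] at hne
      beta_reduce at hne
      have a1 : Cd X W T Zc f := by
        by_contra hc
        exact hne (if_neg hc)
      rw [if_pos a1] at hne
      have a2 : Rich X W T Zc M (l1 f) := by
        by_contra hc
        refine hne ?_
        unfold sm
        split_ifs
        · have : wR X W T Zc M ψ Y (l1 f) = 0 := if_neg hc
          rw [this, zero_mul, zero_mul]
        · rfl
      obtain ⟨w, hw, hw2⟩ := a1.2
      obtain ⟨s, hs⟩ : ∃ s, (kv f w).ap (gk 1 (G.y s)) ≠ 0 := by
        by_contra hc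
        exact hw2 (du_gen G fun s => by
          by_contra hc2
          exact hc ⟨s, hc2⟩)
      have a3 := (rich_iff X W T Zc M f).1 a2 s
      obtain ⟨v, hv⟩ := Finset.card_pos.1 (lt_of_lt_of_le zero_lt_one (hM.trans a3))
      obtain ⟨b1, ⟨a, b2, b3⟩, b4⟩ := Finset.mem_filter.1 hv
      refine ⟨fun _ => v, ?_, ?_⟩
      · unfold Tp
        rw [Finset.mem_filter, Fintype.mem_piFinset]
        refine ⟨fun _ => Finset.mem_filter.2 ⟨mem_sp.2 ⟨b1, ?_⟩, b4⟩,
          Function.injective_of_subsingleton _⟩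
        rw [b2]
        exact Option.some_ne_none _
      · rw [hR]
        exact ⟨a, b2, w, hw, by rw [b3]; exact hs⟩)]
    have hl : ∀ l : Fin 1 → La c S q, ‖∑ b ∈ Cf Zc (La c S q),
        ∑ v ∈ H35.CF.Fr Zc (PPc X W T) b 1,
          if R (up b v l) v then Gf (up b v l) / (Nl Zc (PPc X W T) 1 R (up b v l) : ℂ) else 0‖ ≤
        C₀ * Y * Real.log Y ^ (-A₁) := by
      intro l
      by_cases hl0 : (l 0).2 = 0
      · obtain ⟨g, hgd⟩ : ∃ g : (Pl K → Option (La c S q)) → (Fin 1 → Pl K) → ℂ,
            g = fun b v => if Rich X W T Zc M (l1 (up b v l)) ∧ Cd X W T Zc (up b v l) ∧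
              Sn G Zc b (l 0).1 then
              om Zc (fun v a => w1 G χ a.1 (X.φ (W.Fr.F v)) a.2 (sgE X W κ₀ b (W.Wv v)).n) b *
                H71.S3.qf G χ (l 0).1 1 (0 : Du S q 1) *
                Q1 G B X W χ (fun w => (sgE X W κ₀ b w).n) FreeGroup.of (Sum.elim W.Wv W.Wi) /
                (Nl Zc (PPc X W T) 1 R (up b v l) : ℂ) else 0 := ⟨_, rfl⟩
        obtain ⟨F, hFd⟩ : ∃ F : (Pl K → Option (La c S q)) → (Fin 1 → Pl K) → ℂ,
            F = fun b v => if Kc B X W κ₀ b ∧ Sn G Zc b (l 0).1 then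
              ep q ((sgE X W κ₀ b (W.Wv (v 0))).n.ap (gk 1 (G.y (l 0).1))) else 0 := ⟨_, rfl⟩
        have hRup : ∀ (b : Pl K → Option (La c S q)) (v : Fin 1 → Pl K),
            v ∈ H35.CF.Fr Zc (PPc X W T) b 1 → (R (up b v l) v ↔ Sn G Zc b (l 0).1) := by
          intro b v hv
          rw [hR]
          beta_reduce
          rw [up_nd hv l]
          constructor
          · rintro ⟨a, ha, hs⟩
            rw [← Option.some.inj ha] at hs
            exact (sn_kv (kv_up hv l hl0) _).1 hs
          · intro hs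
            exact ⟨l 0, rfl, (sn_kv (kv_up hv l hl0) _).2 hs⟩
        have hNl : ∀ (b : Pl K → Option (La c S q)) (v : Fin 1 → Pl K),
            v ∈ H35.CF.Fr Zc (PPc X W T) b 1 → Nl Zc (PPc X W T) 1 R (up b v l) =
              (Zc.filter fun w => (∃ a, b w = some a ∧ Sn G Zc b a.1) ∧ PPc X W T w).card +
                if Sn G Zc b (l 0).1 then 1 else 0 := by
          intro b v hv
          rw [nl_one Zc (PPc X W T) R (up b v l) (fun a => Sn G Zc b a.1) fun v' => by
            rw [hR]
            beta_reduce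
            simp only [sn_kv (kv_up hv l hl0)], cnt_up hv l fun a => Sn G Zc b a.1]
        have hsum : (∑ b ∈ Cf Zc (La c S q), ∑ v ∈ H35.CF.Fr Zc (PPc X W T) b 1,
            if R (up b v l) v then Gf (up b v l) / (Nl Zc (PPc X W T) 1 R (up b v l) : ℂ)
              else 0) =
            ∑ b ∈ Cf Zc (La c S q), ∑ v ∈ H35.CF.Fr Zc (PPc X W T) b 1, g b v *
              ((ψ (nr (sp Zc b) * (∏ k, (nm (v k) : ℝ)) / Y) : ℝ) : ℂ) * F b v := by
          refine Finset.sum_congr rfl fun b _ => Finset.sum_congr rfl fun v hv => ?_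
          have ekv := kv_up hv l hl0
          rw [hgd, hFd]
          beta_reduce
          by_cases c1 : Sn G Zc b (l 0).1
          · rw [if_pos ((hRup b v hv).2 c1), hGf]
            beta_reduce
            by_cases c2 : Cd X W T Zc (up b v l)
            · rw [if_pos c2]
              by_cases c3 : Rich X W T Zc M (l1 (up b v l))
              · rw [if_pos ⟨c3, c2, c1⟩]
                by_cases c4 : Kc B X W κ₀ b
                · rw [if_pos ⟨c4, c1⟩]
                  unfold sm
                  rw [if_pos ((kc_kv κ₀ ekv).2 c4), sg_kv κ₀ ekv, om_up hv l]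
                  have hw : wR X W T Zc M ψ Y (l1 (up b v l)) =
                      ((ψ (nr (sp Zc b) * (∏ k, (nm (v k) : ℝ)) / Y) : ℝ) : ℂ) := by
                    unfold wR
                    rw [if_pos c3, l1_sp]
                    have e1 : nr (sp Zc (up b v l)) = nr (sp Zc b) * ∏ k, (nm (v k) : ℝ) :=
                      H1.BD.sp_up_prod Zc (PPc X W T) b v l hv fun v => (nm v : ℝ)
                    rw [e1]
                  have hF1 : X.φ (W.Fr.F (v 0)) = 1 := (fr1 hv).2.1.2
                  have hw1 : w1 G χ (l 0).1 (X.φ (W.Fr.F (v 0))) (l 0).2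
                      (sgE X W κ₀ b (W.Wv (v 0))).n =
                      ep q ((sgE X W κ₀ b (W.Wv (v 0))).n.ap (gk 1 (G.y (l 0).1))) *
                        H71.S3.qf G χ (l 0).1 1 (0 : Du S q 1) := by
                    unfold w1
                    rw [hF1, hl0, one_smul]
                  rw [hw, hw1]
                  ring
                · rw [if_neg fun h => c4 h.1]
                  unfold sm
                  rw [if_neg fun h => c4 ((kc_kv κ₀ ekv).1 h)]
                  simp
              · rw [if_neg fun h => c3 h.1]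
                have hw : wR X W T Zc M ψ Y (l1 (up b v l)) = 0 := if_neg c3
                unfold sm
                rw [hw]
                simp
            · rw [if_neg c2, if_neg fun h => c2 h.2.1]
              simp
          · rw [if_neg fun h => c1 ((hRup b v hv).1 h), if_neg fun h => c1 h.2.2]
            simp
        rw [hsum]
        refine hb Y hY Zc (PPc X W T) (fun v hv => by rw [← hT]; exact hv.1) ψ hψ1 hψ2 hψ3 g F
          ?_ ?_ ?_ ?_
        · intro b _ v hv
          rw [hgd]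
          beta_reduce
          split_ifs with c1
          · have hN : (1 : ℝ) ≤ (Nl Zc (PPc X W T) 1 R (up b v l) : ℝ) := by
              rw [hNl b v hv, if_pos c1.2.2]
              push_cast
              have : (0 : ℝ) ≤ ((Zc.filter fun w => (∃ a, b w = some a ∧ Sn G Zc b a.1) ∧
                PPc X W T w).card : ℝ) := Nat.cast_nonneg _
              linarith
            rw [norm_div, norm_mul, norm_mul, Complex.norm_natCast]
            refine div_le_one_of_le₀ (le_trans ?_ hN) (by linarith)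
            refine mul_le_one₀ (mul_le_one₀ (om_le _ (fun v a => w1_le _ _ _ _ _ _) _)
              (norm_nonneg _) (qf_le _ _ _ _ _)) (norm_nonneg _) (q1_le _ _ _ _ _ _ _ _)
          · rw [norm_zero]
            exact zero_le_one
        · intro b hbm v hv v' hv' _
          rw [hgd]
          beta_reduce
          have a1 : Rich X W T Zc M (l1 (up b v l)) ↔ Rich X W T Zc M (l1 (up b v' l)) := by
            rw [rich_iff, rich_iff]
            refine forall_congr' fun s => ?_
            have h5 := (cnt_up hv l (fun a => a.1 = s)).trans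
              (cnt_up hv' l (fun a => a.1 = s)).symm
            refine iff_of_eq (congrArg (M ≤ ·) ?_)
            convert h5
          have a2 : ∀ w : Fin 1 → Pl K, w ∈ H35.CF.Fr Zc (PPc X W T) b 1 →
              (Cd X W T Zc (up b w l) ↔ Cd X W T Zc b) := by
            intro w hw
            unfold Cd
            rw [kv_up hw l hl0]
            refine and_congr ⟨fun h x hx => h x ?_, fun h x hx hP => ?_⟩ Iff.rfl
            · rw [(H1.BD.sp_up Zc (PPc X W T) b w l hw).1]
              exact Finset.mem_union_left _ hx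
            · rw [(H1.BD.sp_up Zc (PPc X W T) b w l hw).1, Finset.mem_union] at hx
              rcases hx with hx | hx
              · exact h x hx hP
              · obtain ⟨k, -, rfl⟩ := Finset.mem_image.1 hx
                unfold kv
                rw [Subsingleton.elim k 0, (fr1 hw).2.2]
                rfl
          rw [hNl b v hv, hNl b v' hv']
          refine if_congr ?_ rfl rfl
          rw [a1, a2 v hv, a2 v' hv']
        · intro b _ v _
          rw [hFd, one_pow]
          beta_reduce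
          split_ifs with c1
          · rw [ep_norm]
          · rw [norm_zero]
            exact zero_le_one
        · intro lo hi hlh
          rw [← hT] at hlh
          rw [hFd]
          exact hbx κ₀ (l 0).1 lo hi hlh
      · have hz : (∑ b ∈ Cf Zc (La c S q), ∑ v ∈ H35.CF.Fr Zc (PPc X W T) b 1,
            if R (up b v l) v then Gf (up b v l) / (Nl Zc (PPc X W T) 1 R (up b v l) : ℂ)
              else 0) = 0 := by
          refine Finset.sum_eq_zero fun b _ => Finset.sum_eq_zero fun v hv => ?_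
          have hG0 : Gf (up b v l) = 0 := by
            rw [hGf]
            refine if_neg fun hc => hl0 ?_
            have h5 := hc.1 (v 0) (mem_sp.2 ⟨(fr1 hv).1, by
              rw [up_nd hv l]
              exact Option.some_ne_none _⟩) (fr1 hv).2.1
            unfold kv at h5
            rw [up_nd hv l] at h5
            exact h5
          rw [hG0, zero_div, ite_self]
        rw [hz, norm_zero]
        positivity
    refine (norm_sum_le _ _).trans ?_
    refine (Finset.sum_le_card_nsmul _ _ _ fun l _ => hl l).trans ?_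
    rw [nsmul_eq_mul, Finset.card_univ, Fintype.card_fun, Fintype.card_fin, pow_one]
    exact mul_le_mul_of_nonneg_right (by linarith) (by positivity)
  have hcJ : (J0 X).card ≤ g₀ + A.g := by
    unfold H73.S3.J0
    rw [Finset.card_disjSum, Finset.card_univ, Fintype.card_fin]
    exact Nat.add_le_add_right hg _
  unfold NG
  have hR : (0 : ℝ) ≤ ((Fintype.card (La c S q) : ℝ) + 1) * (C₀ * Y * Real.log Y ^ (-A₁)) := by
    positivity
  refine (norm_sum_le _ _).trans ?_
  refine (Finset.sum_le_card_nsmul _ _ ((Fintype.card (Du S q 1) : ℝ) ^ (g₀ + A.g) *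
    (((Fintype.card (La c S q) : ℝ) + 1) * (C₀ * Y * Real.log Y ^ (-A₁)))) fun χ _ => ?_).trans ?_
  · refine (norm_sum_le _ _).trans ?_
    refine (Finset.sum_le_card_nsmul _ _ _ fun κ₀ _ => key χ κ₀).trans ?_
    rw [nsmul_eq_mul, Finset.card_univ, Fintype.card_fun, Fintype.card_coe]
    push_cast
    exact mul_le_mul_of_nonneg_right (pow_le_pow_right₀ hD1 hcJ) hR
  · rw [nsmul_eq_mul, Finset.card_univ]
    refine le_of_eq ?_
    ring

end nga

end H97.S3
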