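import Pool.Agent.H1.BD.Bad
import Pool.Agent.H97.S3.Coi

/-!
# [H97 S3 ONEG] the sum over the variable places for one configuration, with an amplitude (MP_b39724_nt, stage 3)

* `Oe Z c q q'`: the tuples are in the same order relative to the places of `c` and among themselves.
* `one_g`: the sum of `g q · ψ · F q` over the tuples `q` of new places is bounded by the sums of `F` over boxes, an error from the cut-off and the
  coincidences of norms, if `g` depends only on the order.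
* `rev_set`: the sum over the configurations and the tuples of new places of a function of the support.
-/

set_option autoImplicit false

open scoped NumberField
open NumberField IsDedekindDomain H63.MA H57.AN H35.CF H1.BD
open scoped Classical

noncomputable section

namespace H97.S3

/-- the same order of the tuples, relative to the places of `c` and among themselves -/
def Oe {K : Type} [Field K] [NumberField K] {Λ : Type} (Z : Finset (Pl K)) (c : Pl K → Option Λ) {m : ℕ}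
    (q q' : Fin m → Pl K) : Prop :=
  (∀ k, ∀ v ∈ sp Z c, (nm (q k) < nm v ∧ nm (q' k) < nm v) ∨ (nm v < nm (q k) ∧ nm v < nm (q' k))) ∧
    ∀ k j, k ≠ j → (nm (q k) < nm (q j) ∧ nm (q' k) < nm (q' j)) ∨
      (nm (q j) < nm (q k) ∧ nm (q' j) < nm (q' k))

section comb

variable {V Λ Λ' : Type}

theorem sp_mp (Z : Finset V) (f : Λ → Λ') (c : V → Option Λ) : sp Z (mp f c) = sp Z c := by
  ext v
  rw [mem_sp, mem_sp]
  unfold mp
  rw [Ne, Option.map_eq_none_iff]

theorem fr_mp (Z : Finset V) (W : V → Prop) (f : Λ → Λ') (c : V → Option Λ) (m : ℕ) :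
    Fr Z W (mp f c) m = Fr Z W c m := by
  ext q
  rw [mem_fr, mem_fr]
  unfold mp
  simp only [Option.map_eq_none_iff]

theorem up_inj {m : ℕ} (Z : Finset V) (W : V → Prop) (c : V → Option Λ) (l : Fin m → Λ)
    (hl : Function.Injective l) (hc : ∀ v k, c v ≠ some (l k)) {q q' : Fin m → V}
    (hq : q ∈ Fr Z W c m) (hq' : q' ∈ Fr Z W c m) (h : up c q l = up c q' l) : q = q' := by
  funext k
  have h1 := congrFun h (q k)
  rw [up_of c q l (mem_fr.1 hq).2 k] at h1
  by_cases h2 : ∃ j, q' j = q k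
  · obtain ⟨j, hj⟩ := h2
    rw [← hj, up_of c q' l (mem_fr.1 hq').2 j, Option.some_inj] at h1
    rw [← hj, hl h1]
  · rw [up_ne c q' l (q k) fun j hj => h2 ⟨j, hj⟩] at h1
    exact absurd h1.symm (hc (q k) k)

theorem mp_mem [Fintype Λ] [Fintype Λ'] (Z : Finset V) (f : Λ → Λ') (c : V → Option Λ)
    (hc : c ∈ Cf Z Λ) : mp f c ∈ Cf Z Λ' := by
  rw [mem_cf] at hc ⊢
  intro v hv
  unfold mp
  rw [hc v hv, Option.map_none]

/-- the sum over the configurations and the tuples of new places of a function of the support -/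
theorem rev_set [Fintype Λ] (Z : Finset V) (W : V → Prop) (m : ℕ) (G : Finset V → ℝ)
    (hG : ∀ s, 0 ≤ G s) :
    ∑ c ∈ Cf Z Λ, ∑ q ∈ Fr Z W c m, G (sp Z c ∪ Finset.univ.image q) ≤
      ∑ c ∈ Cf Z (Option Λ), ((sp Z c).card : ℝ) ^ m * G (sp Z c) := by
  refine le_trans ?_ (rev Z W m (fun _ => (none : Option Λ)) (fun c => G (sp Z c)) fun c => hG _)
  have hinj : Set.InjOn (fun c : V → Option Λ => mp (some : Λ → Option Λ) c) (Cf Z Λ) := by
    intro c _ c' _ h
    funext v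
    have h1 := congrFun h v
    exact Option.map_injective (Option.some_injective Λ) h1
  calc ∑ c ∈ Cf Z Λ, ∑ q ∈ Fr Z W c m, G (sp Z c ∪ Finset.univ.image q)
      = ∑ c ∈ Cf Z Λ, ∑ q ∈ Fr Z W (mp (some : Λ → Option Λ) c) m,
          G (sp Z (up (mp (some : Λ → Option Λ) c) q fun _ => none)) := by
        refine Finset.sum_congr rfl fun c _ => ?_
        rw [fr_mp]
        refine Finset.sum_congr rfl fun q hq => ?_
        rw [← fr_mp Z W (some : Λ → Option Λ)] at hq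
        rw [(sp_up Z W _ q (fun _ => none) hq).1, sp_mp]
    _ = ∑ c ∈ (Cf Z Λ).image (fun c : V → Option Λ => mp (some : Λ → Option Λ) c),
          ∑ q ∈ Fr Z W c m, G (sp Z (up c q fun _ => none)) :=
        (Finset.sum_image (f := fun c : V → Option (Option Λ) =>
          ∑ q ∈ Fr Z W c m, G (sp Z (up c q fun _ => none))) hinj).symm
    _ ≤ _ := by
        refine Finset.sum_le_sum_of_subset_of_nonneg ?_ fun c _ _ =>
          Finset.sum_nonneg fun q _ => hG _
        intro c hc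
        rw [Finset.mem_image] at hc
        obtain ⟨c₀, hc₀, rfl⟩ := hc
        exact mp_mem Z _ c₀ hc₀

theorem fr_card (Z : Finset V) (W : V → Prop) (m : ℕ) (c : V → Option Λ) (q : Fin m → V)
    (hq : q ∈ Fr Z W c m) : (sp Z c ∪ Finset.univ.image q).card = (sp Z c).card + m := by
  have h := sp_up_card Z W (mp (some : Λ → Option Λ) c) q (fun _ => none) (by rw [fr_mp]; exact hq)
  rw [(sp_up Z W (mp (some : Λ → Option Λ) c) q (fun _ => none) (by rw [fr_mp]; exact hq)).1,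
    sp_mp] at h
  exact h

theorem fr_prod {M : Type} [CommMonoid M] (Z : Finset V) (W : V → Prop) (m : ℕ) (c : V → Option Λ)
    (q : Fin m → V) (hq : q ∈ Fr Z W c m) (f : V → M) :
    ∏ v ∈ sp Z c ∪ Finset.univ.image q, f v = (∏ v ∈ sp Z c, f v) * ∏ k, f (q k) := by
  have h := sp_up_prod Z W (mp (some : Λ → Option Λ) c) q (fun _ => none) (by rw [fr_mp]; exact hq) f
  rw [(sp_up Z W (mp (some : Λ → Option Λ) c) q (fun _ => none) (by rw [fr_mp]; exact hq)).1,
    sp_mp] at h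
  exact h

end comb

variable (K : Type) [Field K] [NumberField K]

/-- the sum over the variable places for one configuration -/
theorem one_g {Λ : Type} [Fintype Λ] (m : ℕ) (Z : Finset (Pl K)) (W : Pl K → Prop) (Y T δ : ℝ)
    (hY : 3 ≤ Y) (hT : 1 ≤ T) (hδ : 0 < δ) (hδ1 : δ ≤ 1) (hW : ∀ v, W v → T < nm v) (J : ℕ)
    (hJ : 2 * Y ≤ T * (1 + δ) ^ J)
    (ψ : ℝ → ℝ) (hψ1 : ∀ t, |ψ t| ≤ 1) (hψ2 : ∀ t, 2 ≤ t → ψ t = 0)
    (hψ3 : ∀ s t, |ψ s - ψ t| ≤ |s - t|) (c : Pl K → Option Λ) (g F : (Fin m → Pl K) → ℂ)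
    (hg : ∀ q ∈ Fr Z W c m, ‖g q‖ ≤ 1)
    (hgo : ∀ q ∈ Fr Z W c m, ∀ q' ∈ Fr Z W c m, Oe Z c q q' → g q = g q') :
    ‖∑ q ∈ Fr Z W c m, g q *
        ((ψ (nr (sp Z c) * (∏ k, (nm (q k) : ℝ)) / Y) : ℝ) : ℂ) * F q‖ ≤
      (∑ j ∈ (Fintype.piFinset fun _ : Fin m => Finset.range J).filter
          (fun j => nr (sp Z c) * ∏ k, T * (1 + δ) ^ j k ≤ 2 * Y),
        ‖∑ q ∈ (Fr Z W c m).filter (fun q => ∀ k, T * (1 + δ) ^ j k < nm (q k) ∧
          (nm (q k) : ℝ) ≤ T * (1 + δ) ^ (j k + 1)), F q‖) +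
      2 ^ (m + 1) * δ * ∑ q ∈ Fr Z W c m,
        (if nr (sp Z c) * (∏ k, (nm (q k) : ℝ)) ≤ 2 ^ (m + 1) * Y then ‖F q‖ else 0) +
      ∑ q ∈ Fr Z W c m, (if nr (sp Z c) * (∏ k, (nm (q k) : ℝ)) ≤ 2 ^ (m + 1) * Y ∧
        Coin δ T (sp Z c ∪ Finset.univ.image q) then ‖F q‖ else 0) := by
  have hY0 : (0 : ℝ) < Y := by linarith
  obtain ⟨c', hc'⟩ : ∃ c' : Pl K → Option (Λ ⊕ Fin m), c' = mp Sum.inl c := ⟨_, rfl⟩
  obtain ⟨l, hl⟩ : ∃ l : Fin m → Λ ⊕ Fin m, l = Sum.inr := ⟨_, rfl⟩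
  have hli : Function.Injective l := by
    rw [hl]
    exact Sum.inr_injective
  have hcl : ∀ v k, c' v ≠ some (l k) := by
    intro v k h
    rw [hc', hl] at h
    unfold mp at h
    rw [Option.map_eq_some_iff] at h
    obtain ⟨a, -, ha⟩ := h
    exact Sum.inl_ne_inr ha
  have hfr : Fr Z W c' m = Fr Z W c m := by
    rw [hc', fr_mp]
  have hsp : sp Z c' = sp Z c := by
    rw [hc', sp_mp]
  obtain ⟨F', hF'⟩ : ∃ F' : (Pl K → Option (Λ ⊕ Fin m)) → ℂ, ∀ q ∈ Fr Z W c m,
      F' (up c' q l) = g q * F q := by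
    refine ⟨fun d => if h : ∃ q ∈ Fr Z W c m, up c' q l = d then g h.choose * F h.choose else 0, ?_⟩
    intro q hq
    have h : ∃ q' ∈ Fr Z W c m, up c' q' l = up c' q l := ⟨q, hq, rfl⟩
    have h1 : h.choose = q := by
      refine up_inj Z W c' l hli hcl ?_ ?_ h.choose_spec.2
      · rw [hfr]
        exact h.choose_spec.1
      · rw [hfr]
        exact hq
    beta_reduce
    rw [dif_pos h, h1]
  have hnr : ∀ q ∈ Fr Z W c m, nr (sp Z (up c' q l)) = nr (sp Z c) * ∏ k, (nm (q k) : ℝ) := by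
    intro q hq
    rw [← hfr] at hq
    rw [← hsp]
    exact sp_up_prod Z W c' q l hq fun v => (nm v : ℝ)
  have h1 := one_conf K (Λ ⊕ Fin m) m Z W Y T δ hY hT hδ hδ1 hW J hJ l ψ hψ1 hψ2 hψ3 F' c'
  rw [hfr, hsp] at h1
  have h2 : ∑ q ∈ Fr Z W c m, ((ψ (nr (sp Z (up c' q l)) / Y) : ℝ) : ℂ) * F' (up c' q l) =
      ∑ q ∈ Fr Z W c m, g q * ((ψ (nr (sp Z c) * (∏ k, (nm (q k) : ℝ)) / Y) : ℝ) : ℂ) * F q := by
    refine Finset.sum_congr rfl fun q hq => ?_
    rw [hF' q hq, hnr q hq]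
    ring
  rw [h2] at h1
  have hF1 : ∀ q ∈ Fr Z W c m, ‖F' (up c' q l)‖ ≤ ‖F q‖ := by
    intro q hq
    rw [hF' q hq, norm_mul]
    exact mul_le_of_le_one_left (norm_nonneg _) (hg q hq)
  -- the boxes
  obtain ⟨Bx, hBx⟩ : ∃ Bx : (Fin m → ℕ) → Finset (Fin m → Pl K), Bx = fun j =>
    (Fr Z W c m).filter (fun q => ∀ k, T * (1 + δ) ^ j k < nm (q k) ∧
          (nm (q k) : ℝ) ≤ T * (1 + δ) ^ (j k + 1)) := ⟨_, rfl⟩
  have hpos : ∀ i : ℕ, 1 ≤ T * (1 + δ) ^ i := fun i =>
    one_le_mul_of_one_le_of_one_le hT (one_le_pow₀ (by linarith))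
  have hmon : Monotone fun j : ℕ => T * (1 + δ) ^ j := by
    intro i j hij
    exact mul_le_mul_of_nonneg_left (pow_le_pow_right₀ (by linarith) hij) (by linarith)
  have hstep : ∀ i : ℕ, T * (1 + δ) ^ (i + 1) = (1 + δ) * (T * (1 + δ) ^ i) := by
    intro i
    rw [pow_succ]
    ring
  have hTi : ∀ i : ℕ, T ≤ T * (1 + δ) ^ i := fun i =>
    le_mul_of_one_le_right (by linarith) (one_le_pow₀ (by linarith))
  -- two places in the same interval
  have hnear : ∀ (i : ℕ) (v w : Pl K) (s : Finset (Pl K)), v ∈ s → w ∈ s → v ≠ w →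
      T * (1 + δ) ^ i < nm v → (nm v : ℝ) ≤ T * (1 + δ) ^ (i + 1) →
      T * (1 + δ) ^ i < nm w → (nm w : ℝ) ≤ T * (1 + δ) ^ (i + 1) → Coin δ T s := by
    intro i v w s hv hw hne h3 h4 h5 h6
    rw [hstep] at h4 h6
    rcases le_total (nm v : ℝ) (nm w) with h7 | h7
    · refine ⟨v, hv, w, hw, hne, (hTi i).trans_lt h3, h7, ?_⟩
      exact h6.trans (mul_le_mul_of_nonneg_left h3.le (by linarith))
    · refine ⟨w, hw, v, hv, Ne.symm hne, (hTi i).trans_lt h5, h7, ?_⟩
      exact h4.trans (mul_le_mul_of_nonneg_left h5.le (by linarith))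
  -- different intervals
  have hlt : ∀ (i j : ℕ) (v w : Pl K), i < j → (nm v : ℝ) ≤ T * (1 + δ) ^ (i + 1) →
      T * (1 + δ) ^ j < nm w → nm v < nm w := by
    intro i j v w hij h3 h4
    have h5 : T * (1 + δ) ^ (i + 1) ≤ T * (1 + δ) ^ j := hmon (Nat.succ_le_of_lt hij)
    have h6 : (nm v : ℝ) < nm w := by linarith
    exact_mod_cast h6
  have hbox : ∀ j : Fin m → ℕ, ‖∑ q ∈ Bx j, F' (up c' q l)‖ ≤ ‖∑ q ∈ Bx j, F q‖ +
      ∑ q ∈ Bx j, if Coin δ T (sp Z c ∪ Finset.univ.image q) then ‖F q‖ else 0 := by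
    intro j
    have hmem : ∀ q, q ∈ Bx j ↔ q ∈ Fr Z W c m ∧ ∀ k, T * (1 + δ) ^ j k < nm (q k) ∧
          (nm (q k) : ℝ) ≤ T * (1 + δ) ^ (j k + 1) := by
      intro q
      rw [hBx]
      exact Finset.mem_filter
    by_cases hgd : Function.Injective j ∧ ∀ v ∈ sp Z c, ∀ k, ¬(T * (1 + δ) ^ j k < nm v ∧
        (nm v : ℝ) ≤ T * (1 + δ) ^ (j k + 1))
    · have hconst : ∀ q ∈ Bx j, ∀ q' ∈ Bx j, g q = g q' := by
        intro q hq q' hq'
        rw [hmem] at hq hq'
        refine hgo q hq.1 q' hq'.1 ⟨fun k v hv => ?_, fun k i hki => ?_⟩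
        · have h3 := hgd.2 v hv k
          by_cases h4 : T * (1 + δ) ^ j k < nm v
          · push Not at h3
            left
            constructor
            · have h5 := (hq.2 k).2.trans_lt (h3 h4)
              exact_mod_cast h5
            · have h5 := (hq'.2 k).2.trans_lt (h3 h4)
              exact_mod_cast h5
          · push Not at h4
            right
            constructor
            · have h5 := h4.trans_lt (hq.2 k).1
              exact_mod_cast h5
            · have h5 := h4.trans_lt (hq'.2 k).1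
              exact_mod_cast h5
        · rcases Nat.lt_or_gt_of_ne fun h => hki (hgd.1 h) with h3 | h3
          · left
            exact ⟨hlt _ _ _ _ h3 (hq.2 k).2 (hq.2 i).1, hlt _ _ _ _ h3 (hq'.2 k).2 (hq'.2 i).1⟩
          · right
            exact ⟨hlt _ _ _ _ h3 (hq.2 i).2 (hq.2 k).1, hlt _ _ _ _ h3 (hq'.2 i).2 (hq'.2 k).1⟩
      have h3 : ‖∑ q ∈ Bx j, F' (up c' q l)‖ ≤ ‖∑ q ∈ Bx j, F q‖ := by
        rcases (Bx j).eq_empty_or_nonempty with h4 | ⟨q₀, hq₀⟩
        · rw [h4, Finset.sum_empty, Finset.sum_empty]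
        · have h5 : ∑ q ∈ Bx j, F' (up c' q l) = g q₀ * ∑ q ∈ Bx j, F q := by
            rw [Finset.mul_sum]
            refine Finset.sum_congr rfl fun q hq => ?_
            rw [hF' q ((hmem q).1 hq).1, hconst q hq q₀ hq₀]
          rw [h5, norm_mul]
          exact mul_le_of_le_one_left (norm_nonneg _) (hg q₀ ((hmem q₀).1 hq₀).1)
      have h4 : 0 ≤ ∑ q ∈ Bx j, if Coin δ T (sp Z c ∪ Finset.univ.image q) then ‖F q‖ else 0 := by
        refine Finset.sum_nonneg fun q _ => ?_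
        split_ifs
        · exact norm_nonneg _
        · exact le_rfl
      linarith
    · have hcoin : ∀ q ∈ Bx j, Coin δ T (sp Z c ∪ Finset.univ.image q) := by
        intro q hq
        rw [hmem] at hq
        have hqm : ∀ k, q k ∈ sp Z c ∪ Finset.univ.image q := fun k =>
          Finset.mem_union_right _ (Finset.mem_image_of_mem q (Finset.mem_univ k))
        by_cases hinj : Function.Injective j
        · have h3 : ∃ v ∈ sp Z c, ∃ k, T * (1 + δ) ^ j k < nm v ∧
              (nm v : ℝ) ≤ T * (1 + δ) ^ (j k + 1) := by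
            by_contra h4
            push Not at h4
            exact hgd ⟨hinj, fun v hv k h5 => absurd h5.2 (not_le.2 (h4 v hv k h5.1))⟩
          obtain ⟨v, hv, k, h4, h5⟩ := h3
          refine hnear (j k) v (q k) _ (Finset.mem_union_left _ hv) (hqm k) ?_ h4 h5
            (hq.2 k).1 (hq.2 k).2
          rintro rfl
          exact (mem_sp.1 hv).2 ((mem_fr.1 hq.1).1 k).2.2
        · unfold Function.Injective at hinj
          push Not at hinj
          obtain ⟨k, i, h3, h4⟩ := hinj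
          refine hnear (j k) (q k) (q i) _ (hqm k) (hqm i) (fun h => h4 ((mem_fr.1 hq.1).2 h))
            (hq.2 k).1 (hq.2 k).2 ?_ ?_
          · rw [h3]
            exact (hq.2 i).1
          · rw [h3]
            exact (hq.2 i).2
      have h3 : ‖∑ q ∈ Bx j, F' (up c' q l)‖ ≤
          ∑ q ∈ Bx j, if Coin δ T (sp Z c ∪ Finset.univ.image q) then ‖F q‖ else 0 := by
        refine (norm_sum_le _ _).trans (Finset.sum_le_sum fun q hq => ?_)
        rw [if_pos (hcoin q hq)]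
        exact hF1 q ((hmem q).1 hq).1
      have h4 : 0 ≤ ‖∑ q ∈ Bx j, F q‖ := norm_nonneg _
      linarith
  obtain ⟨Jf, hJf⟩ : ∃ Jf, Jf = (Fintype.piFinset fun _ : Fin m => Finset.range J).filter
      (fun j => nr (sp Z c) * ∏ k, T * (1 + δ) ^ j k ≤ 2 * Y) := ⟨_, rfl⟩
  have hcs : ∑ j ∈ Jf, ∑ q ∈ Bx j,
      (if Coin δ T (sp Z c ∪ Finset.univ.image q) then ‖F q‖ else 0) ≤
      ∑ q ∈ Fr Z W c m, (if nr (sp Z c) * (∏ k, (nm (q k) : ℝ)) ≤ 2 ^ (m + 1) * Y ∧
        Coin δ T (sp Z c ∪ Finset.univ.image q) then ‖F q‖ else 0) := by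
    have hdis : ∀ j ∈ Jf, ∀ j' ∈ Jf, j ≠ j' → Disjoint (Bx j) (Bx j') := by
      intro j _ j' _ hne
      rw [Finset.disjoint_left]
      intro q hq hq'
      rw [hBx] at hq hq'
      beta_reduce at hq hq'
      rw [Finset.mem_filter] at hq hq'
      refine hne (funext fun k => ?_)
      have h3 := ixx_eq (fun j : ℕ => T * (1 + δ) ^ j) hmon (nm (q k)) (j k) (hq.2 k).1 (hq.2 k).2
      have h4 := ixx_eq (fun j : ℕ => T * (1 + δ) ^ j) hmon (nm (q k)) (j' k) (hq'.2 k).1 (hq'.2 k).2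
      rw [← h3, ← h4]
    rw [← Finset.sum_biUnion hdis]
    have hsub : Jf.biUnion Bx ⊆ Fr Z W c m := by
      intro q hq
      rw [Finset.mem_biUnion] at hq
      obtain ⟨j, -, hq⟩ := hq
      rw [hBx] at hq
      exact (Finset.mem_filter.1 hq).1
    have h3 : ∑ q ∈ Jf.biUnion Bx, (if Coin δ T (sp Z c ∪ Finset.univ.image q) then ‖F q‖ else 0) =
        ∑ q ∈ Jf.biUnion Bx, (if nr (sp Z c) * (∏ k, (nm (q k) : ℝ)) ≤ 2 ^ (m + 1) * Y ∧
          Coin δ T (sp Z c ∪ Finset.univ.image q) then ‖F q‖ else 0) := by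
      refine Finset.sum_congr rfl fun q hq => ?_
      rw [Finset.mem_biUnion] at hq
      obtain ⟨j, hj, hq⟩ := hq
      rw [hJf, Finset.mem_filter] at hj
      rw [hBx] at hq
      beta_reduce at hq
      rw [Finset.mem_filter] at hq
      have h4 : nr (sp Z c) * (∏ k, (nm (q k) : ℝ)) ≤ 2 ^ (m + 1) * Y := by
        have h5 : ∏ k, (nm (q k) : ℝ) ≤ ∏ k, (2 * (T * (1 + δ) ^ j k)) := by
          refine Finset.prod_le_prod (fun k _ => Nat.cast_nonneg _) fun k _ => ?_
          refine (hq.2 k).2.trans ?_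
          rw [hstep]
          exact mul_le_mul_of_nonneg_right (by linarith) (by linarith [hpos (j k)])
        rw [Finset.prod_mul_distrib, Finset.prod_const, Finset.card_univ, Fintype.card_fin] at h5
        have hn1 : 1 ≤ nr (sp Z c) := one_le_nr _
        calc nr (sp Z c) * (∏ k, (nm (q k) : ℝ))
            ≤ nr (sp Z c) * (2 ^ m * ∏ k, T * (1 + δ) ^ j k) :=
              mul_le_mul_of_nonneg_left h5 (by linarith)
          _ = 2 ^ m * (nr (sp Z c) * ∏ k, T * (1 + δ) ^ j k) := by ring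
          _ ≤ 2 ^ m * (2 * Y) := mul_le_mul_of_nonneg_left hj.2 (by positivity)
          _ = 2 ^ (m + 1) * Y := by
              rw [pow_succ]
              ring
      simp only [h4, true_and]
    rw [h3]
    refine Finset.sum_le_sum_of_subset_of_nonneg hsub fun q _ _ => ?_
    split_ifs
    · exact norm_nonneg _
    · exact le_rfl
  have h4 : ∑ j ∈ Jf, ‖∑ q ∈ Bx j, F' (up c' q l)‖ ≤ ∑ j ∈ Jf, ‖∑ q ∈ Bx j, F q‖ +
      ∑ j ∈ Jf, ∑ q ∈ Bx j, (if Coin δ T (sp Z c ∪ Finset.univ.image q) then ‖F q‖ else 0) := by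
    rw [← Finset.sum_add_distrib]
    exact Finset.sum_le_sum fun j _ => hbox j
  have h5 : ∑ q ∈ Fr Z W c m,
        (if nr (sp Z (up c' q l)) ≤ 2 ^ (m + 1) * Y then ‖F' (up c' q l)‖ else 0) ≤
      ∑ q ∈ Fr Z W c m,
        (if nr (sp Z c) * (∏ k, (nm (q k) : ℝ)) ≤ 2 ^ (m + 1) * Y then ‖F q‖ else 0) := by
    refine Finset.sum_le_sum fun q hq => ?_
    rw [hnr q hq]
    split_ifs
    · exact hF1 q hq
    · exact le_rfl
  have h6 := mul_le_mul_of_nonneg_left h5 (by positivity : 0 ≤ 2 ^ (m + 1) * δ)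
  rw [← hJf] at h1 ⊢
  rw [hBx] at h4 hcs
  linarith

end H97.S3
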